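import Mathlib

open MeasureTheory
open scoped ENNReal

namespace Pool.Agent.Lib.MP_e841a3_pr

/-- Relative Fisher information `J(f ‖ φ) = ∫ f (f'/f + x)^2 dx` of a law `μ` on the line, where
`f` is a nonnegative, locally absolutely continuous Lebesgue density of `μ` (there is at most one
such `f`); the value is `+∞` when `μ` has no locally absolutely continuous density. -/
noncomputable def relFisher (μ : Measure ℝ) : ℝ≥0∞ :=
  ⨅ (f : ℝ → ℝ) (_ : ∀ x, 0 ≤ f x) (_ : ∀ a b, AbsolutelyContinuousOnInterval f a b)
    (_ : μ = volume.withDensity (fun x => ENNReal.ofReal (f x))),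
    ∫⁻ x, ENNReal.ofReal (f x * (deriv f x / f x + x) ^ 2)

end Pool.Agent.Lib.MP_e841a3_pr
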