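import Pool.Agent.Lib.MP_e841a3_pr.KL

open MeasureTheory ProbabilityTheory Real Filter Topology InformationTheory
open scoped ENNReal NNReal

set_option linter.unusedSectionVars false

namespace Pool.Agent.Lib.MP_e841a3_pr

/-- The two means `± √(1 - v)`. -/
noncomputable def sg (v : ℝ≥0) : Bool → ℝ := fun b => if b then √(1 - v) else -√(1 - v)

/-- The means of the mixture that is the law of the normalised sum. -/
noncomputable def sm (v : ℝ≥0) (n : ℕ) : (Fin n → Bool) → ℝ := fun s => (∑ j, sg v (s j)) / √n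

lemma sg_sq {v : ℝ≥0} (hv : (v : ℝ) ≤ 1 / 2) (b : Bool) : sg v b ^ 2 = 1 - v := by
  have : (0 : ℝ) ≤ 1 - v := by linarith
  cases b <;> simp [sg, Real.sq_sqrt this]

lemma sm_sq_le {v : ℝ≥0} (hv : (v : ℝ) ≤ 1 / 2) {n : ℕ} (hn : 1 ≤ n) (s : Fin n → Bool) :
    sm v n s ^ 2 ≤ (n : ℝ) ^ 2 := by
  have hn1 : (1 : ℝ) ≤ n := by exact_mod_cast hn
  have h1 : ∀ b, |sg v b| ≤ 1 := by
    intro b
    rw [← sq_le_one_iff_abs_le_one, sg_sq hv]
    have := v.2
    simp
  have h2 : |∑ j, sg v (s j)| ≤ n := by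
    refine (Finset.abs_sum_le_sum_abs _ _).trans ?_
    refine (Finset.sum_le_sum fun j _ => h1 (s j)).trans ?_
    simp
  have h3 : (∑ j, sg v (s j)) ^ 2 ≤ (n : ℝ) ^ 2 := by
    rw [← sq_abs]
    gcongr
  rw [sm, div_pow, Real.sq_sqrt (by linarith)]
  exact (div_le_self (sq_nonneg _) hn1).trans h3

lemma sm_eq (v : ℝ≥0) (n : ℕ) (s : Fin n → Bool) :
    ∃ k : ℤ, sm v n s = √(1 - v) * k / √n := by
  refine ⟨∑ j, if s j then 1 else -1, ?_⟩
  rw [sm]
  congr 1
  push_cast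
  rw [Finset.mul_sum]
  refine Finset.sum_congr rfl fun j _ => ?_
  cases s j <;> simp [sg]

lemma exists_family {v : ℝ≥0} (hv : (v : ℝ) ≤ 1 / 2) (n : ℕ) (hn : 1 ≤ n) :
    ∃ (Ω : Type) (_ : MeasurableSpace Ω) (P : Measure Ω) (_ : IsProbabilityMeasure P)
      (X : ℕ → Ω → ℝ), (∀ i, Measurable (X i)) ∧ iIndepFun X P ∧
      (∀ i, IdentDistrib (X i) (X 0) P P) ∧ Integrable (fun ω => X 0 ω ^ 4) P ∧
      ∫ ω, X 0 ω ∂P = 0 ∧ ∫ ω, X 0 ω ^ 2 ∂P = 1 ∧ ∫ ω, X 0 ω ^ 4 ∂P ≤ 1 + 4 * v ∧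
      P.map (X 0) = mix (sg v) v ∧
      P.map (fun ω => (∑ i ∈ Finset.range n, X i ω) / √n) = mix (sm v n) v := by
  obtain ⟨Ω, mΩ, P, X, hm, hlaw, hind, hP⟩ := exists_iid ℕ (mix (sg v) v)
  have hint : ∀ k : ℕ, ∫ ω, X 0 ω ^ k ∂P = ∫ x, x ^ k ∂(mix (sg v) v) := by
    intro k
    rw [← (hlaw 0).map_eq, integral_map (hm 0).aemeasurable (by fun_prop)]
  refine ⟨Ω, mΩ, P, hP, X, hm, hind, fun i =>
    ⟨(hm i).aemeasurable, (hm 0).aemeasurable, by rw [(hlaw i).map_eq, (hlaw 0).map_eq]⟩,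
    ?_, ?_, ?_, ?_, (hlaw 0).map_eq, law_sum hm hind _ v hlaw n hn⟩
  · have h : Integrable (fun x : ℝ => x ^ 4) (mix (sg v) v) :=
      integrable_mix _ _ _ fun i => integrable_pow_gauss _ v 4
    rw [← (hlaw 0).map_eq] at h
    exact (integrable_map_measure (by fun_prop) (hm 0).aemeasurable).1 h
  · have := hint 1
    simp only [pow_one] at this
    rw [this, integral_mix _ _ _ fun i => by simpa using integrable_pow_gauss _ v 1]
    simp [sg]
  · rw [hint 2, integral_mix _ _ _ fun i => integrable_pow_gauss _ v 2]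
    simp only [integral_sq_gauss, sg_sq hv]
    simp
  · rw [hint 4, integral_mix _ _ _ fun i => integrable_pow_gauss _ v 4]
    have e : ∀ b, sg v b ^ 4 = (1 - v) ^ 2 := fun b => by
      rw [← sg_sq hv b]; ring
    simp only [integral_four_gauss, sg_sq hv, e]
    simp only [Fintype.card_bool, Nat.cast_ofNat, Finset.sum_const, Finset.card_univ,
      nsmul_eq_mul, smul_eq_mul]
    nlinarith [sq_nonneg (v : ℝ)]

lemma integral_cos_gauss (m : ℝ) (v : ℝ≥0) (t : ℝ) :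
    ∫ x, cos (t * x) ∂(gaussianReal m v) = exp (- (v * t ^ 2 / 2)) * cos (t * m) := by
  have h := charFun_gaussianReal (μ := m) (v := v) t
  rw [charFun_apply_real] at h
  have hi : Integrable (fun x : ℝ => Complex.exp (t * x * Complex.I)) (gaussianReal m v) := by
    refine (integrable_const (1 : ℝ)).mono' (by fun_prop) (ae_of_all _ fun x => ?_)
    rw [show (t : ℂ) * x * Complex.I = ((t * x : ℝ) : ℂ) * Complex.I by push_cast; ring,
      Complex.norm_exp_ofReal_mul_I]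
  have h2 := integral_re hi
  simp only [RCLike.re_to_complex] at h2
  rw [h] at h2
  have e1 : ∀ x : ℝ, (Complex.exp (t * x * Complex.I)).re = cos (t * x) := by
    intro x
    rw [show (t : ℂ) * x * Complex.I = ((t * x : ℝ) : ℂ) * Complex.I by push_cast; ring,
      Complex.exp_ofReal_mul_I_re]
  simp only [e1] at h2
  rw [h2, Complex.exp_re]
  congr 2
  · simp [pow_two]
  · simp [pow_two]

lemma integrable_cos (μ : Measure ℝ) [IsProbabilityMeasure μ] (t : ℝ) :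
    Integrable (fun x => cos (t * x)) μ :=
  (integrable_const (1 : ℝ)).mono' (by fun_prop)
    (ae_of_all _ fun x => by simpa using abs_cos_le_one _)

lemma fisher_one_le {v : ℝ≥0} (hv0 : v ≠ 0) (hv : (v : ℝ) ≤ 1 / 2) :
    relFisher (mix (sg v) v) ≤ ENNReal.ofReal (1 / v) := by
  refine (fisher_mix_le _ hv0).trans (ENNReal.ofReal_le_ofReal ?_)
  have hv' : (0 : ℝ) < v := by positivity
  simp only [sg_sq hv, Fintype.card_bool, Nat.cast_ofNat, Finset.sum_const, Finset.card_univ,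
    nsmul_eq_mul]
  have : (2 : ℝ)⁻¹ * (2 * (1 - v + (1 - 1 / v) ^ 2 * v)) = 1 / v - 1 := by
    field_simp
    ring
  linarith

lemma fisher_sum_ge {v : ℝ≥0} (hv0 : v ≠ 0) (hv : (v : ℝ) ≤ 1 / 2) {n : ℕ} (hn : 1 ≤ n)
    {η : ℝ} (hη : 0 < η) :
    ENNReal.ofReal ((1 - η) / v - (8 * π ^ 2 * n + (n ^ 2 + 1) / η)) ≤
      relFisher (mix (sm v n) v) := by
  have hv' : (0 : ℝ) < v := by positivity
  have hn0 : (0 : ℝ) < n := by exact_mod_cast hn
  set a : ℝ := √(1 - v) with ha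
  have ha2 : a ^ 2 = 1 - v := Real.sq_sqrt (by linarith)
  have ha0 : 0 < a := Real.sqrt_pos.2 (by linarith)
  have hs0 : 0 < √(n : ℝ) := Real.sqrt_pos.2 hn0
  set t : ℝ := 2 * π * √n / a with ht
  have ht0 : 0 < t := by have := pi_pos; positivity
  have ht2 : t ^ 2 ≤ 8 * π ^ 2 * n := by
    rw [ht, div_pow, mul_pow, Real.sq_sqrt hn0.le, ha2, div_le_iff₀ (by linarith)]
    have : 0 ≤ π ^ 2 * n := by positivity
    nlinarith
  set ν := mix (sm v n) v with hν
  have h2 : Integrable (fun x : ℝ => x ^ 2) ν :=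
    integrable_mix _ _ _ fun i => integrable_pow_gauss _ v 2
  have hN0 : (0 : ℝ) < Fintype.card (Fin n → Bool) := card_pos'
  have hcos : ∀ j : ℕ, ∫ x, cos (j * t * x) ∂ν = exp (- (v * (j * t) ^ 2 / 2)) := by
    intro j
    rw [hν, integral_mix _ _ _ fun i => integrable_cos _ _]
    have : ∀ s, ∫ x, cos (j * t * x) ∂(gaussianReal (sm v n s) v) =
        exp (- (v * (j * t) ^ 2 / 2)) := by
      intro s
      obtain ⟨k, hk⟩ := sm_eq v n s
      rw [integral_cos_gauss, hk]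
      have : j * t * (a * k / √n) = ((j * k : ℤ) : ℝ) * (2 * π) := by
        rw [ht]; push_cast; field_simp
      rw [this, cos_int_mul_two_pi, mul_one]
    simp only [this, Finset.sum_const, Finset.card_univ, nsmul_eq_mul, smul_eq_mul]
    field_simp
  have hsq : ∫ x, x ^ 2 ∂ν ≤ n ^ 2 + 1 := by
    rw [hν, integral_mix _ _ _ fun i => integrable_pow_gauss _ v 2]
    simp only [integral_sq_gauss, smul_eq_mul]
    rw [inv_mul_le_iff₀ hN0]
    refine (Finset.sum_le_sum (g := fun _ => (n : ℝ) ^ 2 + 1) fun s _ => ?_).trans ?_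
    · have := sm_sq_le hv hn s
      linarith
    · simp only [Finset.sum_const, Finset.card_univ, nsmul_eq_mul, le_refl]
  refine le_trans (ENNReal.ofReal_le_ofReal ?_) (fisher_lower ν h2 t (1 / (v * t)) η ht0 hη)
  have e : ∀ x : ℝ, 2 * (1 / (v * t)) * t * cos (t * x) - x ^ 2 / η
      - (1 + η) * (1 / (v * t)) ^ 2 * sin (t * x) ^ 2 =
      (2 / v * cos ((1 : ℕ) * t * x) - x ^ 2 / η) -
        ((1 + η) * (1 / (v * t)) ^ 2 / 2 -
          (1 + η) * (1 / (v * t)) ^ 2 / 2 * cos ((2 : ℕ) * t * x)) := by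
    intro x
    rw [sin_sq_eq_half_sub]
    push_cast
    rw [one_mul, mul_assoc 2 t x]
    field_simp
  simp only [e]
  have i1 : Integrable (fun x : ℝ => 2 / v * cos ((1 : ℕ) * t * x)) ν :=
    (integrable_cos _ _).const_mul _
  have i2 : Integrable (fun x : ℝ => x ^ 2 / η) ν := h2.div_const _
  have i3 : Integrable (fun x : ℝ => (1 + η) * (1 / (v * t)) ^ 2 / 2 * cos ((2 : ℕ) * t * x)) ν :=
    (integrable_cos _ _).const_mul _
  have i12 : Integrable (fun x : ℝ => 2 / v * cos ((1 : ℕ) * t * x) - x ^ 2 / η) ν := i1.sub i2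
  have i03 : Integrable (fun x : ℝ => (1 + η) * (1 / (v * t)) ^ 2 / 2 -
      (1 + η) * (1 / (v * t)) ^ 2 / 2 * cos ((2 : ℕ) * t * x)) ν := (integrable_const _).sub i3
  rw [integral_sub i12 i03, integral_sub i1 i2, integral_sub (integrable_const _) i3,
    integral_const_mul, integral_const_mul, integral_div, hcos, hcos]
  simp only [integral_const, probReal_univ, smul_eq_mul, one_mul]
  push_cast
  have b1 := add_one_le_exp (- (v * (1 * t) ^ 2 / 2))
  have b2 := add_one_le_exp (- (v * (2 * t) ^ 2 / 2))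
  have c1 : 2 / v * (1 - v * t ^ 2 / 2) ≤ 2 / v * exp (- (v * (1 * t) ^ 2 / 2)) := by
    gcongr
    linarith
  have c2 : (1 + η) * (1 / (v * t)) ^ 2 / 2 * (1 - 2 * v * t ^ 2) ≤
      (1 + η) * (1 / (v * t)) ^ 2 / 2 * exp (- (v * (2 * t) ^ 2 / 2)) := by
    gcongr
    linarith
  have c3 : (∫ x, x ^ 2 ∂ν) / η ≤ (n ^ 2 + 1) / η := by gcongr
  have d1 : 2 / v * (1 - v * t ^ 2 / 2) = 2 / v - t ^ 2 := by field_simp
  have d2 : (1 + η) * (1 / (v * t)) ^ 2 / 2 * (1 - 2 * v * t ^ 2) =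
      (1 + η) * (1 / (v * t)) ^ 2 / 2 - (1 + η) / v := by field_simp
  have d3 : (1 - η) / v = 2 / v - (1 + η) / v := by field_simp; ring
  simp only [one_mul] at c1 ⊢
  linarith

end Pool.Agent.Lib.MP_e841a3_pr
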