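import Mathlib

open MeasureTheory ProbabilityTheory Real
open scoped ENNReal NNReal

set_option linter.unusedSectionVars false

namespace Pool.Agent.Lib.MP_e841a3_pr

variable {ι : Type} [Fintype ι] [Nonempty ι]

/-- Uniform mixture of Gaussians with means `m i` and common variance `v`. -/
noncomputable def mix (m : ι → ℝ) (v : ℝ≥0) : Measure ℝ :=
  ((Fintype.card ι : ℝ≥0∞))⁻¹ • ∑ i, gaussianReal (m i) v

lemma card_ne_zero' : (Fintype.card ι : ℝ≥0∞) ≠ 0 := by
  simp

lemma card_pos' : (0 : ℝ) < Fintype.card ι := by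
  exact_mod_cast Fintype.card_pos

instance mix_prob (m : ι → ℝ) (v : ℝ≥0) : IsProbabilityMeasure (mix m v) := by
  constructor
  simp only [mix, Measure.smul_apply, Measure.coe_finsetSum, Finset.sum_apply, measure_univ,
    Finset.sum_const, Finset.card_univ, nsmul_eq_mul, mul_one, smul_eq_mul]
  exact ENNReal.inv_mul_cancel card_ne_zero' (by simp)

lemma integrable_mix {E : Type*} [NormedAddCommGroup E] (m : ι → ℝ) (v : ℝ≥0) (g : ℝ → E)
    (h : ∀ i, Integrable g (gaussianReal (m i) v)) : Integrable g (mix m v) := by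
  unfold mix
  refine Integrable.smul_measure ?_ (by simp)
  exact integrable_finsetSum_measure.2 fun i _ => h i

lemma integral_mix {E : Type*} [NormedAddCommGroup E] [NormedSpace ℝ E] (m : ι → ℝ) (v : ℝ≥0)
    (g : ℝ → E) (h : ∀ i, Integrable g (gaussianReal (m i) v)) :
    ∫ x, g x ∂(mix m v) = ((Fintype.card ι : ℝ))⁻¹ • ∑ i, ∫ x, g x ∂(gaussianReal (m i) v) := by
  unfold mix
  rw [integral_smul_measure, integral_finsetSum_measure fun i _ => h i]
  simp

lemma mix_apply (m : ι → ℝ) (v : ℝ≥0) (s : Set ℝ) :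
    mix m v s = ((Fintype.card ι : ℝ≥0∞))⁻¹ * ∑ i, gaussianReal (m i) v s := by
  simp [mix]

lemma integrable_pow_gauss (m : ℝ) (v : ℝ≥0) (k : ℕ) :
    Integrable (fun x : ℝ => x ^ k) (gaussianReal m v) := by
  have h := (memLp_id_gaussianReal (μ := m) (v := v) k).integrable_norm_pow'
  refine h.mono (by fun_prop) ?_
  simp

lemma integral_sq_gauss (m : ℝ) (v : ℝ≥0) : ∫ x, x ^ 2 ∂(gaussianReal m v) = m ^ 2 + v := by
  have h := variance_eq_sub (μ := gaussianReal m v) (X := id) (memLp_id_gaussianReal 2)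
  simp only [variance_id_gaussianReal, Pi.pow_apply, id, integral_id_gaussianReal] at h
  linarith

lemma integral_four_gauss (m : ℝ) (v : ℝ≥0) :
    ∫ x, x ^ 4 ∂(gaussianReal m v) = m ^ 4 + 6 * m ^ 2 * v + 3 * v ^ 2 := by
  have h := iteratedDeriv_mgf_zero (X := fun x : ℝ => x) (μ := gaussianReal m v) (by simp) 4
  simp only [Pi.pow_apply] at h
  rw [← h, mgf_fun_id_gaussianReal]
  have hd : ∀ t : ℝ, HasDerivAt (fun t : ℝ => rexp (m * t + v * t ^ 2 / 2))
      ((m + v * t) * rexp (m * t + v * t ^ 2 / 2)) t := by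
    intro t
    have h1 : HasDerivAt (fun t : ℝ => m * t + v * t ^ 2 / 2) (m + v * t) t := by
      have := ((hasDerivAt_id t).const_mul m).add
        (((hasDerivAt_pow 2 t).const_mul (v : ℝ)).div_const 2)
      refine HasDerivAt.congr_deriv this ?_
      push_cast
      ring
    have := h1.exp
    convert this using 1
    ring
  have hl : ∀ t : ℝ, HasDerivAt (fun t : ℝ => m + v * t) v t := by
    intro t
    simpa using ((hasDerivAt_id t).const_mul (v : ℝ)).const_add m
  have e1 : deriv (fun t : ℝ => rexp (m * t + v * t ^ 2 / 2))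
      = fun t => (m + v * t) * rexp (m * t + v * t ^ 2 / 2) := by
    funext t; exact (hd t).deriv
  have e2 : deriv (fun t : ℝ => (m + v * t) * rexp (m * t + v * t ^ 2 / 2))
      = fun t => (v + (m + v * t) ^ 2) * rexp (m * t + v * t ^ 2 / 2) := by
    funext t
    have := ((hl t).mul (hd t)).deriv
    rw [show (fun t : ℝ => (m + v * t) * rexp (m * t + v * t ^ 2 / 2)) =
      ((fun t : ℝ => m + v * t) * fun t : ℝ => rexp (m * t + v * t ^ 2 / 2)) from rfl, this]
    ring
  have e3 : deriv (fun t : ℝ => (v + (m + v * t) ^ 2) * rexp (m * t + v * t ^ 2 / 2))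
      = fun t => (3 * v * (m + v * t) + (m + v * t) ^ 3) * rexp (m * t + v * t ^ 2 / 2) := by
    funext t
    have := ((((hl t).pow 2).const_add (v : ℝ)).mul (hd t)).deriv
    rw [show (fun t : ℝ => (v + (m + v * t) ^ 2) * rexp (m * t + v * t ^ 2 / 2)) =
      ((fun t : ℝ => (v : ℝ) + ((fun t : ℝ => m + v * t) ^ 2) t) *
        fun t : ℝ => rexp (m * t + v * t ^ 2 / 2)) from rfl, this]
    simp
    ring
  have e4 : deriv (fun t : ℝ => (3 * v * (m + v * t) + (m + v * t) ^ 3) *
      rexp (m * t + v * t ^ 2 / 2)) 0 = m ^ 4 + 6 * m ^ 2 * v + 3 * v ^ 2 := by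
    have := ((((hl 0).const_mul (3 * (v : ℝ))).add ((hl 0).pow 3)).mul (hd 0)).deriv
    rw [show (fun t : ℝ => (3 * v * (m + v * t) + (m + v * t) ^ 3) *
      rexp (m * t + v * t ^ 2 / 2)) =
      (((fun t : ℝ => 3 * (v : ℝ) * (m + v * t)) + ((fun t : ℝ => m + v * t) ^ 3)) *
        fun t : ℝ => rexp (m * t + v * t ^ 2 / 2)) from rfl, this]
    simp
    ring
  rw [iteratedDeriv_succ', e1, iteratedDeriv_succ', e2, iteratedDeriv_succ', e3,
    iteratedDeriv_one, e4]

lemma charFun_mix (m : ι → ℝ) (v : ℝ≥0) (t : ℝ) :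
    charFun (mix m v) t = ((Fintype.card ι : ℂ))⁻¹ *
      ∑ i, Complex.exp (t * m i * Complex.I - v * t ^ 2 / 2) := by
  rw [charFun_apply_real, integral_mix]
  · simp only [← charFun_apply_real, charFun_gaussianReal]
    simp
  · intro i
    refine (integrable_const (1 : ℝ)).mono' (by fun_prop) (ae_of_all _ fun x => ?_)
    rw [show (t : ℂ) * x * Complex.I = ((t * x : ℝ) : ℂ) * Complex.I by push_cast; ring,
      Complex.norm_exp_ofReal_mul_I]

/-- The law of the normalised sum of `n` i.i.d. Gaussian mixtures. -/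
lemma law_sum {Ω : Type*} {mΩ : MeasurableSpace Ω} {P : Measure Ω} [IsProbabilityMeasure P]
    {X : ℕ → Ω → ℝ} (hm : ∀ i, Measurable (X i)) (hind : iIndepFun X P) (m : ι → ℝ) (v : ℝ≥0)
    (hlaw : ∀ i, HasLaw (X i) (mix m v) P) (n : ℕ) (hn : 1 ≤ n) :
    P.map (fun ω => (∑ i ∈ Finset.range n, X i ω) / √n) =
      mix (fun s : Fin n → ι => (∑ j, m (s j)) / √n) v := by
  have hid : ∀ i, IdentDistrib (X i) (X 0) P P := fun i =>
    ⟨(hm i).aemeasurable, (hm 0).aemeasurable, by rw [(hlaw i).map_eq, (hlaw 0).map_eq]⟩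
  have : IsProbabilityMeasure (P.map (fun ω => (∑ i ∈ Finset.range n, X i ω) / √n)) :=
    Measure.isProbabilityMeasure_map (by fun_prop)
  apply Measure.ext_of_charFun
  funext t
  have h := charFun_inv_sqrt_mul_sum hind hid (n := n) (t := t)
  simp only [← div_eq_inv_mul] at h
  rw [h, (hlaw 0).map_eq, charFun_mix, charFun_mix, mul_pow, Fintype.sum_pow]
  have hn0 : (0 : ℝ) < n := by exact_mod_cast hn
  have hs : (√n : ℝ) ≠ 0 := by positivity
  have hsq : ((√n : ℝ) : ℂ) ^ 2 = n := by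
    rw [← Complex.ofReal_pow, Real.sq_sqrt hn0.le]; simp
  have hnC : (n : ℂ) ≠ 0 := by exact_mod_cast hn0.ne'
  have hsC : ((√n : ℝ) : ℂ) ≠ 0 := by exact_mod_cast hs
  congr 1
  · simp
  · refine Finset.sum_congr rfl fun s _ => ?_
    rw [← Complex.exp_sum]
    congr 1
    rw [Finset.sum_sub_distrib]
    simp only [Finset.sum_const, Finset.card_univ, Fintype.card_fin, nsmul_eq_mul]
    push_cast
    rw [← Finset.sum_mul, ← Finset.mul_sum, div_pow, hsq]
    field_simp

end Pool.Agent.Lib.MP_e841a3_pr
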