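import Pool.Agent.Lib.MP_e841a3_pr.Defs
import Pool.Agent.Lib.MP_e841a3_pr.Mix

open MeasureTheory ProbabilityTheory Real Filter Topology
open scoped ENNReal NNReal

set_option linter.unusedSectionVars false

namespace Pool.Agent.Lib.MP_e841a3_pr

lemma ofReal_integral_le {α : Type*} {mα : MeasurableSpace α} {μ : Measure α} {H F : α → ℝ}
    (hH : Integrable H μ) (hle : ∀ x, H x ≤ F x) :
    ENNReal.ofReal (∫ x, H x ∂μ) ≤ ∫⁻ x, ENNReal.ofReal (F x) ∂μ := by
  have h1 : ∫ x, H x ∂μ ≤ ∫ x, max (H x) 0 ∂μ :=
    integral_mono hH hH.pos_part fun x => le_max_left _ _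
  refine (ENNReal.ofReal_le_ofReal h1).trans ?_
  rw [ofReal_integral_eq_lintegral_ofReal hH.pos_part (ae_of_all _ fun x => le_max_right _ _)]
  refine lintegral_mono fun x => ?_
  simp only [ENNReal.ofReal_max, ENNReal.ofReal_zero, zero_le, max_eq_left]
  exact ENNReal.ofReal_le_ofReal (hle x)

/-- Variational lower bound for the relative Fisher information. -/
lemma fisher_lower (ν : Measure ℝ) [IsProbabilityMeasure ν]
    (h2 : Integrable (fun x : ℝ => x ^ 2) ν) (t c η : ℝ) (ht : 0 < t) (hη : 0 < η) :
    ENNReal.ofReal (∫ x, (2 * c * t * cos (t * x) - x ^ 2 / η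
      - (1 + η) * c ^ 2 * sin (t * x) ^ 2) ∂ν) ≤ relFisher ν := by
  unfold relFisher
  refine le_iInf fun f => le_iInf fun hf0 => le_iInf fun hAC => le_iInf fun hν => ?_
  have hcont : Continuous f := by
    rw [continuous_iff_continuousAt]
    intro x
    have := (hAC (x - 1) (x + 1)).continuousOn
    refine this.continuousAt ?_
    rw [Set.uIcc_of_le (by linarith)]
    exact Icc_mem_nhds (by linarith) (by linarith)
  set ψ : ℝ → ℝ := fun x => 2 * c * t * cos (t * x) - x ^ 2 / η
      - (1 + η) * c ^ 2 * sin (t * x) ^ 2 with hψ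
  have hψc : Continuous ψ := by rw [hψ]; fun_prop
  have hψi : Integrable ψ ν := by
    refine Integrable.sub (Integrable.sub ?_ (h2.div_const η)) ?_
    · refine Integrable.const_mul ?_ _
      exact (integrable_const (1 : ℝ)).mono' (by fun_prop)
        (ae_of_all _ fun x => by simpa using abs_cos_le_one _)
    · refine Integrable.const_mul ?_ _
      refine (integrable_const (1 : ℝ)).mono' (by fun_prop) (ae_of_all _ fun x => ?_)
      rw [Real.norm_eq_abs, abs_of_nonneg (sq_nonneg _)]
      exact sin_sq_le_one _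
  have hmeas : Measurable fun x => ENNReal.ofReal (f x) := hcont.measurable.ennreal_ofReal
  have hint : ∫ x, ψ x ∂ν = ∫ x, f x * ψ x := by
    rw [hν, integral_withDensity_eq_integral_toReal_smul hmeas (ae_of_all _ fun x => by simp)]
    refine integral_congr_ae (ae_of_all _ fun x => ?_)
    simp [ENNReal.toReal_ofReal (hf0 x)]
  have hfi : Integrable (fun x => f x * ψ x) := by
    rw [hν, integrable_withDensity_iff_integrable_smul' hmeas (ae_of_all _ fun x => by simp)]
      at hψi
    refine hψi.congr (ae_of_all _ fun x => ?_)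
    simp [ENNReal.toReal_ofReal (hf0 x)]
  rw [hint]
  have hR : Tendsto (fun k : ℕ => (k : ℝ) * (π / t)) atTop atTop :=
    tendsto_natCast_atTop_atTop.atTop_mul_const (by positivity)
  have hlim := intervalIntegral_tendsto_integral hfi (tendsto_neg_atTop_atBot.comp hR) hR
  refine le_of_tendsto' (ENNReal.tendsto_ofReal hlim) fun k => ?_
  simp only [Function.comp]
  set R : ℝ := (k : ℝ) * (π / t) with hRdef
  have hR0 : 0 ≤ R := by positivity
  have hsR : sin (t * R) = 0 := by
    have : t * R = k * π := by rw [hRdef]; field_simp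
    rw [this, sin_nat_mul_pi]
  set g : ℝ → ℝ := fun x => sin (t * x) with hg
  have hgd : ∀ x, HasDerivAt g (t * cos (t * x)) x := by
    intro x
    have := ((hasDerivAt_id x).const_mul t).sin
    refine HasDerivAt.congr_deriv this ?_
    simp [mul_comm]
  have hgAC : AbsolutelyContinuousOnInterval g (-R) R :=
    ContDiffOn.absolutelyContinuousOnInterval (by rw [hg]; fun_prop)
  have hibp := hgAC.integral_mul_deriv_eq_deriv_mul (hAC (-R) R)
  have hg1 : g R = 0 := hsR
  have hg2 : g (-R) = 0 := by simp [hg, hsR]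
  simp only [hg1, hg2, zero_mul, sub_zero, zero_sub, (hgd _).deriv] at hibp
  have hgc : Continuous g := by rw [hg]; fun_prop
  have hi1 : IntervalIntegrable (fun x => g x * deriv f x) volume (-R) R :=
    (hAC (-R) R).intervalIntegrable_deriv.continuousOn_mul hgc.continuousOn
  set q : ℝ → ℝ := fun x => f x * (- x ^ 2 / η - (1 + η) * c ^ 2 * sin (t * x) ^ 2) with hq
  have hqc : Continuous q := by rw [hq]; fun_prop
  have hi2 : IntervalIntegrable q volume (-R) R := hqc.intervalIntegrable _ _
  have hi3 : IntervalIntegrable (fun x => t * cos (t * x) * f x) volume (-R) R :=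
    (by fun_prop : Continuous fun x => t * cos (t * x) * f x).intervalIntegrable _ _
  have key : ∫ x in (-R)..R, f x * ψ x = ∫ x in (-R)..R, (-2 * c * (g x * deriv f x) + q x) := by
    rw [intervalIntegral.integral_add (hi1.const_mul _) hi2, intervalIntegral.integral_const_mul,
      hibp]
    have : ∀ x, f x * ψ x = 2 * c * (t * cos (t * x) * f x) + q x := by
      intro x; simp only [hψ, hq]; ring
    simp only [this]
    rw [intervalIntegral.integral_add (hi3.const_mul _) hi2, intervalIntegral.integral_const_mul]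
    ring
  rw [key, intervalIntegral.integral_of_le (by linarith)]
  have hi4 : IntegrableOn (fun x => -2 * c * (g x * deriv f x) + q x) (Set.Ioc (-R) R) :=
    ((hi1.const_mul (-2 * c)).add hi2).1
  refine (ofReal_integral_le (F := fun x => f x * (deriv f x / f x + x) ^ 2) hi4
    fun x => ?_).trans (setLIntegral_le_lintegral _ _)
  simp only [hq, hg]
  rcases (hf0 x).eq_or_lt with h0 | hpos
  · have hd : deriv f x = 0 := by
      refine IsLocalMin.deriv_eq_zero (Eventually.of_forall fun y => ?_)
      rw [← h0]; exact hf0 y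
    simp [hd, ← h0]
  · set s := sin (t * x)
    set u := deriv f x / f x with hu
    have hdu : deriv f x = f x * u := by rw [hu]; field_simp
    rw [hdu]
    have e1 : f x * (u + x) ^ 2 - (-2 * c * (s * (f x * u)) +
        f x * (-x ^ 2 / η - (1 + η) * c ^ 2 * s ^ 2)) =
        f x * ((u + x + c * s) ^ 2 + (x - η * c * s) ^ 2 / η) := by
      field_simp
      ring
    have e2 : 0 ≤ f x * ((u + x + c * s) ^ 2 + (x - η * c * s) ^ 2 / η) := by positivity
    linarith

variable {ι : Type} [Fintype ι] [Nonempty ι]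

lemma hasDerivAt_pdf (m : ℝ) {v : ℝ≥0} (hv : v ≠ 0) (x : ℝ) :
    HasDerivAt (gaussianPDFReal m v) (-((x - m) / v) * gaussianPDFReal m v x) x := by
  have hv' : (v : ℝ) ≠ 0 := by exact_mod_cast hv
  have h1 : HasDerivAt (fun x : ℝ => -(x - m) ^ 2 / (2 * v)) (-((x - m) / v)) x := by
    have := ((((hasDerivAt_id x).sub_const m).pow 2).neg).div_const (2 * (v : ℝ))
    refine HasDerivAt.congr_deriv this ?_
    simp
    field_simp
  have h2 := h1.exp.const_mul (√(2 * π * v))⁻¹
  rw [gaussianPDFReal_def]
  refine HasDerivAt.congr_deriv h2 ?_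
  ring

lemma contDiff_pdf (m : ℝ) (v : ℝ≥0) : ContDiff ℝ 1 (gaussianPDFReal m v) := by
  rw [gaussianPDFReal_def]
  fun_prop

lemma mix_eq_withDensity (m : ι → ℝ) {v : ℝ≥0} (hv : v ≠ 0) :
    mix m v = volume.withDensity (fun x => ENNReal.ofReal
      ((Fintype.card ι : ℝ)⁻¹ * ∑ i, gaussianPDFReal (m i) v x)) := by
  ext s hs
  rw [mix_apply, withDensity_apply _ hs]
  simp only [gaussianReal_apply _ hv]
  rw [← lintegral_finsetSum _ fun i _ => measurable_gaussianPDF (m i) v,
    ← lintegral_const_mul _ (Finset.measurable_sum _ fun i _ => measurable_gaussianPDF (m i) v)]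
  refine lintegral_congr fun x => ?_
  rw [ENNReal.ofReal_mul (by positivity),
    ENNReal.ofReal_sum_of_nonneg fun i _ => gaussianPDFReal_nonneg _ _ _,
    ENNReal.ofReal_inv_of_pos card_pos']
  simp [gaussianPDF]

/-- Upper bound for the relative Fisher information of a Gaussian mixture. -/
lemma fisher_mix_le (m : ι → ℝ) {v : ℝ≥0} (hv : v ≠ 0) :
    relFisher (mix m v) ≤ ENNReal.ofReal
      ((Fintype.card ι : ℝ)⁻¹ * ∑ i, (m i ^ 2 + (1 - 1 / v) ^ 2 * v)) := by
  have hv' : (v : ℝ) ≠ 0 := by exact_mod_cast hv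
  set N : ℝ := (Fintype.card ι : ℝ) with hN
  have hN0 : 0 < N := card_pos'
  set f : ℝ → ℝ := fun x => N⁻¹ * ∑ i, gaussianPDFReal (m i) v x with hf
  have hf0 : ∀ x, 0 ≤ f x := fun x =>
    mul_nonneg (by positivity) (Finset.sum_nonneg fun i _ => gaussianPDFReal_nonneg _ _ _)
  have hcd : ContDiff ℝ 1 f :=
    contDiff_const.mul (ContDiff.sum fun i _ => contDiff_pdf (m i) v)
  have hAC : ∀ a b, AbsolutelyContinuousOnInterval f a b := fun a b =>
    hcd.contDiffOn.absolutelyContinuousOnInterval
  have hd : ∀ x, deriv f x = N⁻¹ * ∑ i, -((x - m i) / v) * gaussianPDFReal (m i) v x := by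
    intro x
    exact ((HasDerivAt.fun_sum fun i _ => hasDerivAt_pdf (m i) hv x).const_mul N⁻¹).deriv
  unfold relFisher
  refine iInf_le_of_le f (iInf_le_of_le hf0 (iInf_le_of_le hAC
    (iInf_le_of_le (mix_eq_withDensity m hv) ?_)))
  have hpt : ∀ x, f x * (deriv f x / f x + x) ^ 2 ≤
      N⁻¹ * ∑ i, gaussianPDFReal (m i) v x * (x - (x - m i) / v) ^ 2 := by
    intro x
    have hp : ∀ i ∈ Finset.univ, 0 < gaussianPDFReal (m i) v x :=
      fun i _ => gaussianPDFReal_pos _ _ _ hv
    have hS : 0 < ∑ i, gaussianPDFReal (m i) v x := Finset.sum_pos hp Finset.univ_nonempty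
    have T := Finset.sq_sum_div_le_sum_sq_div Finset.univ
      (fun i => (x - (x - m i) / v) * gaussianPDFReal (m i) v x) hp
    have e1 : ∑ i, (x - (x - m i) / v) * gaussianPDFReal (m i) v x =
        (∑ i, -((x - m i) / v) * gaussianPDFReal (m i) v x)
          + x * ∑ i, gaussianPDFReal (m i) v x := by
      rw [Finset.mul_sum, ← Finset.sum_add_distrib]
      exact Finset.sum_congr rfl fun i _ => by ring
    have e2 : ∑ i, ((x - (x - m i) / v) * gaussianPDFReal (m i) v x) ^ 2 /
        gaussianPDFReal (m i) v x =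
        ∑ i, gaussianPDFReal (m i) v x * (x - (x - m i) / v) ^ 2 := by
      refine Finset.sum_congr rfl fun i hi => ?_
      have := (hp i hi).ne'
      field_simp
    rw [e1, e2] at T
    rw [hd]
    simp only [hf]
    refine le_trans (le_of_eq ?_) (mul_le_mul_of_nonneg_left T (by positivity : 0 ≤ N⁻¹))
    field_simp
  have hint : ∀ i, Integrable (fun x : ℝ => (x - (x - m i) / v) ^ 2) (gaussianReal (m i) v) := by
    intro i
    have h0 := integrable_pow_gauss (m i) v 0
    have h1 := integrable_pow_gauss (m i) v 1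
    have h2 := integrable_pow_gauss (m i) v 2
    have := ((h2.const_mul ((1 - 1 / (v : ℝ)) ^ 2)).add
      (h1.const_mul (2 * (1 - 1 / (v : ℝ)) * (m i / v)))).add (h0.const_mul ((m i / v) ^ 2))
    refine this.congr (ae_of_all _ fun x => ?_)
    simp only [Pi.add_apply]
    ring
  have hval : ∀ i, ∫ x, (x - (x - m i) / v) ^ 2 ∂(gaussianReal (m i) v) =
      m i ^ 2 + (1 - 1 / v) ^ 2 * v := by
    intro i
    have h1 := integrable_pow_gauss (m i) v 1
    simp only [pow_one] at h1
    have h2 := integrable_pow_gauss (m i) v 2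
    have e : ∀ x : ℝ, (x - (x - m i) / v) ^ 2 = ((1 - 1 / (v : ℝ)) ^ 2 * x ^ 2 +
        (2 * (1 - 1 / (v : ℝ)) * (m i / v)) * x) + (m i / v) ^ 2 := fun x => by ring
    simp only [e]
    have h3 : Integrable (fun x : ℝ => (1 - 1 / (v : ℝ)) ^ 2 * x ^ 2 +
        (2 * (1 - 1 / (v : ℝ)) * (m i / v)) * x) (gaussianReal (m i) v) :=
      (h2.const_mul _).add (h1.const_mul _)
    rw [integral_add h3 (integrable_const _),
      integral_add (h2.const_mul _) (h1.const_mul _), integral_const_mul, integral_const_mul,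
      integral_sq_gauss, integral_id_gaussianReal]
    simp
    field_simp
    ring
  have hint' : ∀ i, Integrable
      (fun x : ℝ => gaussianPDFReal (m i) v x * (x - (x - m i) / v) ^ 2) := by
    intro i
    have h := hint i
    rw [gaussianReal_of_var_ne_zero _ hv, integrable_withDensity_iff_integrable_smul'
      (measurable_gaussianPDF _ _) (ae_of_all _ fun x => gaussianPDF_lt_top)] at h
    simpa using h
  refine (lintegral_mono fun x => ENNReal.ofReal_le_ofReal (hpt x)).trans (le_of_eq ?_)
  rw [← ofReal_integral_eq_lintegral_ofReal]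
  · congr 1
    rw [integral_const_mul, integral_finsetSum _ fun i _ => hint' i]
    congr 1
    refine Finset.sum_congr rfl fun i _ => ?_
    rw [← hval i, integral_gaussianReal_eq_integral_smul hv]
    simp
  · exact (integrable_finsetSum _ fun i _ => hint' i).const_mul _
  · refine ae_of_all _ fun x => mul_nonneg (by positivity) (Finset.sum_nonneg fun i _ => ?_)
    exact mul_nonneg (gaussianPDFReal_nonneg _ _ _) (sq_nonneg _)

end Pool.Agent.Lib.MP_e841a3_pr
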