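import Pool.Agent.Lib.MP_e841a3_pr.Fisher

open MeasureTheory ProbabilityTheory Real Filter Topology InformationTheory
open scoped ENNReal NNReal

set_option linter.unusedSectionVars false

namespace Pool.Agent.Lib.MP_e841a3_pr

lemma klDiv_le_of_le_smul (μ γ : Measure ℝ) [IsProbabilityMeasure μ] [IsProbabilityMeasure γ]
    (B : ℝ) (hB : 1 ≤ B) (h : μ ≤ ENNReal.ofReal B • γ) :
    klDiv μ γ ≤ ENNReal.ofReal (log B + 1) := by
  have hac : μ ≪ γ := Measure.absolutelyContinuous_of_le_smul h
  have hle : μ.rnDeriv γ ≤ᵐ[γ] fun _ => ENNReal.ofReal B := by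
    refine ae_le_of_forall_setLIntegral_le_of_sigmaFinite (Measure.measurable_rnDeriv _ _)
      fun s hs _ => ?_
    rw [Measure.setLIntegral_rnDeriv hac, setLIntegral_const]
    simpa using h s
  have hlog : 0 ≤ log B := log_nonneg hB
  rw [klDiv_eq_lintegral_klFun_of_ac hac]
  calc ∫⁻ x, ENNReal.ofReal (klFun (μ.rnDeriv γ x).toReal) ∂γ
      ≤ ∫⁻ x, (ENNReal.ofReal (log B) * μ.rnDeriv γ x + 1) ∂γ := by
        refine lintegral_mono_ae ?_
        filter_upwards [hle] with x hx
        have hfin : μ.rnDeriv γ x ≠ ∞ := ne_top_of_le_ne_top ENNReal.ofReal_ne_top hx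
        set r := (μ.rnDeriv γ x).toReal with hr
        have hr0 : 0 ≤ r := ENNReal.toReal_nonneg
        have hrB : r ≤ B := by
          have := ENNReal.toReal_mono ENNReal.ofReal_ne_top hx
          rwa [ENNReal.toReal_ofReal (by linarith)] at this
        have h1 : klFun r ≤ log B * r + 1 := by
          rw [klFun_apply]
          rcases hr0.eq_or_lt with h0 | hpos
          · simp [← h0]
          · have := log_le_log hpos hrB
            nlinarith
        refine (ENNReal.ofReal_le_ofReal h1).trans (le_of_eq ?_)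
        rw [ENNReal.ofReal_add (by positivity) zero_le_one, ENNReal.ofReal_mul hlog, hr,
          ENNReal.ofReal_toReal hfin, ENNReal.ofReal_one]
    _ = ENNReal.ofReal (log B + 1) := by
        rw [lintegral_add_right _ measurable_const,
          lintegral_const_mul _ (Measure.measurable_rnDeriv _ _), Measure.lintegral_rnDeriv hac,
          ENNReal.ofReal_add hlog zero_le_one]
        simp

lemma klDiv_lower (ν γ : Measure ℝ) [IsProbabilityMeasure ν] [IsProbabilityMeasure γ]
    (A : Set ℝ) (L : ℝ) :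
    ENNReal.ofReal (L * ν.real A - exp L * γ.real A) ≤ klDiv ν γ := by
  by_cases hac : ν ≪ γ
  swap
  · simp [hac]
  rw [klDiv_eq_lintegral_klFun_of_ac hac]
  have hi : Integrable (fun x => (ν.rnDeriv γ x).toReal) γ := Measure.integrable_toReal_rnDeriv
  have e : L * ν.real A - exp L * γ.real A =
      ∫ x in A, (L * (ν.rnDeriv γ x).toReal - exp L) ∂γ := by
    rw [integral_sub (hi.const_mul L).integrableOn (integrable_const _), integral_const_mul,
      Measure.setIntegral_toReal_rnDeriv hac]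
    simp [mul_comm]
  rw [e]
  have hi2 : Integrable (fun x => L * (ν.rnDeriv γ x).toReal - exp L) (γ.restrict A) :=
    ((hi.const_mul L).integrableOn).sub (integrable_const _)
  refine (ofReal_integral_le (F := fun x => klFun (ν.rnDeriv γ x).toReal) hi2
    fun x => ?_).trans (setLIntegral_le_lintegral _ _)
  set r := (ν.rnDeriv γ x).toReal
  have hr0 : 0 ≤ r := ENNReal.toReal_nonneg
  rw [klFun_apply]
  rcases hr0.eq_or_lt with h0 | hpos
  · have := exp_pos L
    simp only [← h0]
    simp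
    linarith
  · have h1 := add_one_le_exp (L - log r)
    rw [exp_sub, exp_log hpos, le_div_iff₀ hpos] at h1
    nlinarith

lemma pdf_le_one (x : ℝ) : gaussianPDFReal 0 1 x ≤ 1 := by
  rw [gaussianPDFReal]
  have h1 : (1 : ℝ) ≤ √(2 * π * (1 : ℝ≥0)) := by
    rw [Real.le_sqrt' one_pos]
    have := pi_gt_three
    simp
    linarith
  have h2 : rexp (-(x - 0) ^ 2 / (2 * (1 : ℝ≥0))) ≤ 1 := by
    rw [exp_le_one_iff]
    have := sq_nonneg (x - 0)
    simp only [NNReal.coe_one]
    linarith
  have h3 : (√(2 * π * (1 : ℝ≥0)))⁻¹ ≤ 1 := inv_le_one_of_one_le₀ h1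
  exact mul_le_one₀ h3 (exp_pos _).le h2

lemma gauss_le_volume (s : Set ℝ) : gaussianReal 0 1 s ≤ volume s := by
  rw [gaussianReal_apply _ one_ne_zero]
  calc ∫⁻ x in s, gaussianPDF 0 1 x ≤ ∫⁻ _ in s, 1 := by
        refine lintegral_mono fun x => ?_
        simpa [gaussianPDF] using pdf_le_one x
    _ = volume s := by simp

lemma pdf_le_mul (m K : ℝ) {v : ℝ≥0} (hv : v ≠ 0) (hv2 : (v : ℝ) ≤ 1 / 2) (hm : m ^ 2 ≤ K)
    (x : ℝ) : gaussianPDFReal m v x ≤ (exp K / √v) * gaussianPDFReal 0 1 x := by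
  have hv0 : (0 : ℝ) < v := by positivity
  simp only [gaussianPDFReal, NNReal.coe_one, mul_one, sub_zero]
  have hs : √(2 * π * v) = √(2 * π) * √v := Real.sqrt_mul (by positivity) _
  have hexp : rexp (-(x - m) ^ 2 / (2 * v)) ≤ exp K * rexp (-x ^ 2 / 2) := by
    rw [← exp_add, exp_le_exp]
    have h1 : (x - m) ^ 2 ≤ (x - m) ^ 2 / (2 * v) := by
      rw [le_div_iff₀ (by positivity)]
      nlinarith [sq_nonneg (x - m)]
    rw [neg_div]
    nlinarith [sq_nonneg (x - 2 * m)]
  rw [hs]
  have hp : 0 < √(2 * π) := by positivity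
  have hq : 0 < √(v : ℝ) := by positivity
  calc (√(2 * π) * √v)⁻¹ * rexp (-(x - m) ^ 2 / (2 * v))
      ≤ (√(2 * π) * √v)⁻¹ * (exp K * rexp (-x ^ 2 / 2)) := by gcongr
    _ = _ := by field_simp

variable {ι : Type} [Fintype ι] [Nonempty ι]

lemma mix_le_smul (m : ι → ℝ) (K : ℝ) {v : ℝ≥0} (hv : v ≠ 0) (hv2 : (v : ℝ) ≤ 1 / 2)
    (hm : ∀ i, m i ^ 2 ≤ K) :
    mix m v ≤ ENNReal.ofReal (exp K / √v) • gaussianReal 0 1 := by
  refine Measure.le_iff.2 fun s hs => ?_
  rw [mix_apply]
  have h : ∀ i, gaussianReal (m i) v s ≤ ENNReal.ofReal (exp K / √v) * gaussianReal 0 1 s := by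
    intro i
    rw [gaussianReal_apply _ hv, gaussianReal_apply _ one_ne_zero,
      ← lintegral_const_mul _ (measurable_gaussianPDF _ _)]
    refine lintegral_mono fun x => ?_
    simp only [gaussianPDF]
    rw [← ENNReal.ofReal_mul (by positivity)]
    exact ENNReal.ofReal_le_ofReal (pdf_le_mul _ _ hv hv2 (hm i) x)
  calc (Fintype.card ι : ℝ≥0∞)⁻¹ * ∑ i, gaussianReal (m i) v s
      ≤ (Fintype.card ι : ℝ≥0∞)⁻¹ *
        ∑ _i : ι, ENNReal.ofReal (exp K / √v) * gaussianReal 0 1 s := by
        gcongr with i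
        exact h i
    _ = _ := by
        simp only [Finset.sum_const, Finset.card_univ, nsmul_eq_mul, Measure.smul_apply,
          smul_eq_mul]
        rw [← mul_assoc, ENNReal.inv_mul_cancel card_ne_zero' (by simp), one_mul]

lemma kl_mix_le (m : ι → ℝ) (K : ℝ) (hK : 0 ≤ K) {v : ℝ≥0} (hv : v ≠ 0) (hv2 : (v : ℝ) ≤ 1 / 2)
    (hm : ∀ i, m i ^ 2 ≤ K) :
    klDiv (mix m v) (gaussianReal 0 1) ≤ ENNReal.ofReal (K + 1 - log √v) := by
  have hv0 : (0 : ℝ) < v := by positivity
  have hq : 0 < √(v : ℝ) := by positivity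
  have hq1 : √(v : ℝ) ≤ 1 := by
    rw [Real.sqrt_le_iff]; constructor <;> linarith
  have hB : 1 ≤ exp K / √v := by
    rw [le_div_iff₀ hq]
    have := one_le_exp hK
    linarith
  refine (klDiv_le_of_le_smul _ _ _ hB (mix_le_smul m K hv hv2 hm)).trans (le_of_eq ?_)
  rw [log_div (exp_pos _).ne' hq.ne', log_exp]
  congr 1
  ring

lemma kl_mix_ge (m : ι → ℝ) (K : ℝ) (hK : 0 < K) {v : ℝ≥0} (hv : v ≠ 0)
    (hsmall : 2 * K * Fintype.card ι * √v ≤ 1) :
    ENNReal.ofReal ((1 - 1 / K ^ 2) * (- log (2 * K * Fintype.card ι * √v)) - 1) ≤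
      klDiv (mix m v) (gaussianReal 0 1) := by
  have hv0 : (0 : ℝ) < v := by positivity
  have hq : 0 < √(v : ℝ) := by positivity
  have hN0 : (0 : ℝ) < Fintype.card ι := card_pos'
  set r : ℝ := K * √v with hr
  have hr0 : 0 < r := by positivity
  set A : Set ℝ := ⋃ i, Set.Ioo (m i - r) (m i + r) with hA
  have hAm : MeasurableSet A := MeasurableSet.iUnion fun i => measurableSet_Ioo
  set w : ℝ := 2 * K * Fintype.card ι * √v with hw
  have hw0 : 0 < w := by positivity
  have hL : 0 ≤ - log w := by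
    have := log_nonpos hw0.le hsmall
    linarith
  have h1 : (gaussianReal 0 1).real A ≤ w := by
    refine (measureReal_iUnion_fintype_le _).trans ?_
    have : ∀ i, (gaussianReal 0 1).real (Set.Ioo (m i - r) (m i + r)) ≤ 2 * r := by
      intro i
      refine ENNReal.toReal_le_of_le_ofReal (by positivity) ((gauss_le_volume _).trans ?_)
      rw [Real.volume_Ioo]
      exact le_of_eq (by congr 1; ring)
    refine (Finset.sum_le_sum fun i _ => this i).trans (le_of_eq ?_)
    simp only [Finset.sum_const, Finset.card_univ, nsmul_eq_mul, hw, hr]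
    ring
  have h2 : (mix m v).real Aᶜ ≤ 1 / K ^ 2 := by
    refine ENNReal.toReal_le_of_le_ofReal (by positivity) ?_
    rw [mix_apply]
    have h : ∀ i, gaussianReal (m i) v Aᶜ ≤ ENNReal.ofReal (1 / K ^ 2) := by
      intro i
      have hc := meas_ge_le_variance_div_sq (μ := gaussianReal (m i) v) (X := id)
        (memLp_id_gaussianReal 2) hr0
      simp only [id, integral_id_gaussianReal, variance_id_gaussianReal] at hc
      refine le_trans (measure_mono fun x hx => ?_) (hc.trans (le_of_eq ?_))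
      · simp only [hA, Set.mem_compl_iff, Set.mem_iUnion, Set.mem_Ioo, not_exists] at hx
        have := hx i
        simp only [Set.mem_ofPred_eq]
        by_contra hlt
        rw [not_le, abs_lt] at hlt
        exact this ⟨by linarith [hlt.1], by linarith [hlt.2]⟩
      · congr 1
        rw [hr, mul_pow, Real.sq_sqrt hv0.le]
        field_simp
    calc (Fintype.card ι : ℝ≥0∞)⁻¹ * ∑ i, gaussianReal (m i) v Aᶜ
        ≤ (Fintype.card ι : ℝ≥0∞)⁻¹ * ∑ _i : ι, ENNReal.ofReal (1 / K ^ 2) := by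
          gcongr with i
          exact h i
      _ = _ := by
          simp only [Finset.sum_const, Finset.card_univ, nsmul_eq_mul]
          rw [← mul_assoc, ENNReal.inv_mul_cancel card_ne_zero' (by simp), one_mul]
  have h3 : 1 - 1 / K ^ 2 ≤ (mix m v).real A := by
    have := probReal_compl_eq_one_sub (μ := mix m v) hAm
    linarith
  refine le_trans (ENNReal.ofReal_le_ofReal ?_) (klDiv_lower (mix m v) (gaussianReal 0 1) A (- log w))
  have h4 : exp (- log w) * (gaussianReal 0 1).real A ≤ 1 := by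
    rw [exp_neg, exp_log hw0, inv_mul_le_iff₀ hw0]
    linarith
  nlinarith [mul_le_mul_of_nonneg_left h3 hL]

end Pool.Agent.Lib.MP_e841a3_pr
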