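import Pool.Agent.Lib.MP_e841a3_pr.Family

open MeasureTheory ProbabilityTheory Real Filter Topology InformationTheory
open scoped ENNReal NNReal

set_option linter.unusedSectionVars false

namespace Pool.Agent.Lib.MP_e841a3_pr

variable {ι : Type} [Fintype ι] [Nonempty ι]

lemma integrable_pdf_mul {m : ℝ} {v : ℝ≥0} (hv : v ≠ 0) {h : ℝ → ℝ}
    (hh : Integrable h (gaussianReal m v)) : Integrable fun x => gaussianPDFReal m v x * h x := by
  rw [gaussianReal_of_var_ne_zero _ hv, integrable_withDensity_iff_integrable_smul'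
    (measurable_gaussianPDF _ _) (ae_of_all _ fun x => gaussianPDF_lt_top)] at hh
  simpa using hh

lemma integral_pdf_mul (m : ℝ) {v : ℝ≥0} (hv : v ≠ 0) (h : ℝ → ℝ) :
    ∫ x, gaussianPDFReal m v x * h x = ∫ x, h x ∂(gaussianReal m v) := by
  rw [integral_gaussianReal_eq_integral_smul hv]
  simp

/-- Lower bound for the relative Fisher information of a Gaussian mixture. -/
lemma fisher_mix_ge (m : ι → ℝ) {v : ℝ≥0} (hv : v ≠ 0) (g : ℝ → ℝ) (h : ι → ℝ → ℝ)
    (hint : ∀ i, Integrable (h i) (gaussianReal (m i) v))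
    (hle : ∀ i x, h i x ≤ 2 * g x * (x - (x - m i) / v) - g x ^ 2) :
    ENNReal.ofReal ((Fintype.card ι : ℝ)⁻¹ * ∑ i, ∫ x, h i x ∂(gaussianReal (m i) v)) ≤
      relFisher (mix m v) := by
  set N : ℝ := (Fintype.card ι : ℝ) with hN
  have hN0 : 0 < N := card_pos'
  set f : ℝ → ℝ := fun x => N⁻¹ * ∑ i, gaussianPDFReal (m i) v x with hf
  have hfpos : ∀ x, 0 < f x := fun x => mul_pos (by positivity)
    (Finset.sum_pos (fun i _ => gaussianPDFReal_pos _ _ _ hv) Finset.univ_nonempty)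
  have hcd : ContDiff ℝ 1 f :=
    contDiff_const.mul (ContDiff.sum fun i _ => contDiff_pdf (m i) v)
  have hd : ∀ x, deriv f x = N⁻¹ * ∑ i, -((x - m i) / v) * gaussianPDFReal (m i) v x := by
    intro x
    exact ((HasDerivAt.fun_sum fun i _ => hasDerivAt_pdf (m i) hv x).const_mul N⁻¹).deriv
  unfold relFisher
  refine le_iInf fun f' => le_iInf fun hf0 => le_iInf fun hAC => le_iInf fun hν => ?_
  have hcont : Continuous f' := by
    rw [continuous_iff_continuousAt]
    intro x
    have := (hAC (x - 1) (x + 1)).continuousOn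
    refine this.continuousAt ?_
    rw [Set.uIcc_of_le (by linarith)]
    exact Icc_mem_nhds (by linarith) (by linarith)
  obtain rfl : f = f' := by
    rw [mix_eq_withDensity m hv, withDensity_eq_iff_of_sigmaFinite
      hcd.continuous.measurable.ennreal_ofReal.aemeasurable
      hcont.measurable.ennreal_ofReal.aemeasurable] at hν
    refine (Continuous.ae_eq_iff_eq volume hcd.continuous hcont).1 ?_
    filter_upwards [hν] with x hx
    exact (ENNReal.ofReal_eq_ofReal_iff (hfpos x).le (hf0 x)).1 hx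
  have e : N⁻¹ * ∑ i, ∫ x, h i x ∂(gaussianReal (m i) v) =
      ∫ x, N⁻¹ * ∑ i, gaussianPDFReal (m i) v x * h i x := by
    rw [integral_const_mul, integral_finsetSum _ fun i _ => integrable_pdf_mul hv (hint i)]
    simp only [integral_pdf_mul _ hv]
  rw [e]
  refine ofReal_integral_le
    ((integrable_finsetSum _ fun i _ => integrable_pdf_mul hv (hint i)).const_mul _) fun x => ?_
  have h1 : ∑ i, gaussianPDFReal (m i) v x * h i x ≤
      ∑ i, (2 * g x * (-((x - m i) / v) * gaussianPDFReal (m i) v x) +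
        (2 * g x * x - g x ^ 2) * gaussianPDFReal (m i) v x) :=
    Finset.sum_le_sum fun i _ =>
      (mul_le_mul_of_nonneg_left (hle i x) (gaussianPDFReal_nonneg _ _ _)).trans_eq (by ring)
  rw [Finset.sum_add_distrib, ← Finset.mul_sum, ← Finset.mul_sum] at h1
  have h2 : N⁻¹ * ∑ i, gaussianPDFReal (m i) v x * h i x ≤
      2 * g x * deriv f x + (2 * g x * x - g x ^ 2) * f x := by
    rw [hd]
    refine (mul_le_mul_of_nonneg_left h1 (by positivity : 0 ≤ N⁻¹)).trans_eq ?_
    simp only [hf]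
    ring
  refine h2.trans ?_
  have hpos := hfpos x
  obtain ⟨u, hu⟩ : ∃ u, u = deriv f x / f x := ⟨_, rfl⟩
  have hdu : deriv f x = f x * u := by rw [hu]; field_simp
  rw [← hu, hdu]
  nlinarith [mul_nonneg hpos.le (sq_nonneg (u + x - g x))]

lemma integrable_quad (m : ℝ) (v : ℝ≥0) (a b c : ℝ) :
    Integrable (fun x : ℝ => a * x ^ 2 + b * x + c) (gaussianReal m v) := by
  have h1 := integrable_pow_gauss m v 1
  simp only [pow_one] at h1
  exact (((integrable_pow_gauss m v 2).const_mul _).add (h1.const_mul _)).add (integrable_const _)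

lemma integral_quad (m : ℝ) (v : ℝ≥0) (a b c : ℝ) :
    ∫ x, (a * x ^ 2 + b * x + c) ∂(gaussianReal m v) = a * (m ^ 2 + v) + b * m + c := by
  have h1 := integrable_pow_gauss m v 1
  simp only [pow_one] at h1
  have h2 := integrable_pow_gauss m v 2
  have h3 : Integrable (fun x : ℝ => a * x ^ 2 + b * x) (gaussianReal m v) :=
    (h2.const_mul _).add (h1.const_mul _)
  rw [integral_add h3 (integrable_const _), integral_add (h2.const_mul _) (h1.const_mul _),
    integral_const_mul, integral_const_mul, integral_sq_gauss, integral_id_gaussianReal]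
  simp

lemma log_pdf_div (m : ℝ) {v : ℝ≥0} (hv : v ≠ 0) (x : ℝ) :
    log (gaussianPDFReal m v x / gaussianPDFReal 0 1 x) =
      (1 / 2 - 1 / (2 * v)) * x ^ 2 + m / v * x + (-(m ^ 2 / (2 * v)) - log v / 2) := by
  have hv' : (0 : ℝ) < v := NNReal.coe_pos.2 (pos_iff_ne_zero.2 hv)
  have hp := pi_pos
  rw [log_div (gaussianPDFReal_pos _ _ _ hv).ne' (gaussianPDFReal_pos _ _ _ one_ne_zero).ne']
  simp only [gaussianPDFReal]
  rw [log_mul (by positivity) (exp_pos _).ne', log_mul (by positivity) (exp_pos _).ne', log_exp,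
    log_exp, log_inv, log_inv, log_sqrt (by positivity), log_sqrt (by positivity),
    log_mul (by positivity) hv'.ne']
  simp only [NNReal.coe_one, mul_one, sub_zero]
  field_simp
  ring

/-- Upper bound for the relative entropy of a Gaussian mixture by convexity. -/
lemma kl_mix_le' (m : ι → ℝ) {v : ℝ≥0} (hv : v ≠ 0) :
    klDiv (mix m v) (gaussianReal 0 1) ≤ ENNReal.ofReal
      ((Fintype.card ι : ℝ)⁻¹ * ∑ i, (m i ^ 2 + (1 - 1 / v) ^ 2 * v) / 2) := by
  have hv' : (0 : ℝ) < v := NNReal.coe_pos.2 (pos_iff_ne_zero.2 hv)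
  set N : ℝ := (Fintype.card ι : ℝ) with hN
  have hN0 : 0 < N := card_pos'
  have hφ : ∀ x, 0 < gaussianPDFReal 0 1 x := fun x => gaussianPDFReal_pos _ _ _ one_ne_zero
  set ρ : ℝ → ℝ := fun x => ∑ i, N⁻¹ • (gaussianPDFReal (m i) v x / gaussianPDFReal 0 1 x) with hρ
  have hρm : Measurable ρ := Finset.measurable_sum _ fun i _ => by
    have h1 := measurable_gaussianPDFReal (m i) v
    have h2 := measurable_gaussianPDFReal 0 1
    fun_prop
  have hρ0 : ∀ x, 0 ≤ ρ x := fun x => Finset.sum_nonneg fun i _ =>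
    smul_nonneg (by positivity) (div_nonneg (gaussianPDFReal_nonneg _ _ _) (hφ x).le)
  have hw : mix m v = (gaussianReal 0 1).withDensity fun x => ENNReal.ofReal (ρ x) := by
    rw [mix_eq_withDensity m hv, gaussianReal_of_var_ne_zero _ one_ne_zero,
      ← withDensity_mul _ (measurable_gaussianPDF _ _) hρm.ennreal_ofReal]
    congr 1
    ext x
    rw [Pi.mul_apply, gaussianPDF, ← ENNReal.ofReal_mul (hφ x).le, ← hN]
    congr 1
    simp only [hρ, smul_eq_mul, Finset.mul_sum]
    refine Finset.sum_congr rfl fun i _ => ?_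
    have := (hφ x).ne'
    field_simp
  have hac : mix m v ≪ gaussianReal 0 1 := hw ▸ withDensity_absolutelyContinuous _ _
  have hrn : (mix m v).rnDeriv (gaussianReal 0 1) =ᵐ[gaussianReal 0 1]
      fun x => ENNReal.ofReal (ρ x) := by
    rw [hw]
    exact Measure.rnDeriv_withDensity _ hρm.ennreal_ofReal
  set q : ι → ℝ → ℝ := fun i x => (1 / 2 - 1 / (2 * v)) * x ^ 2 + m i / v * x +
    (-(m i ^ 2 / (2 * v)) - log v / 2 - 1) with hq
  have hqi : ∀ i, Integrable fun x => gaussianPDFReal (m i) v x * q i x + gaussianPDFReal 0 1 x :=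
    fun i => (integrable_pdf_mul hv (integrable_quad _ _ _ _ _)).add (integrable_gaussianPDFReal _ _)
  have hk : ∀ i x, gaussianPDFReal 0 1 x * klFun (gaussianPDFReal (m i) v x / gaussianPDFReal 0 1 x)
      = gaussianPDFReal (m i) v x * q i x + gaussianPDFReal 0 1 x := fun i x => by
    rw [klFun_apply, log_pdf_div _ hv, hq]
    have := (hφ x).ne'
    field_simp
    ring
  have hpt : ∀ x, gaussianPDFReal 0 1 x * klFun (ρ x) ≤
      N⁻¹ * ∑ i, (gaussianPDFReal (m i) v x * q i x + gaussianPDFReal 0 1 x) := fun x => by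
    have h1 := convexOn_klFun.map_sum_le (t := Finset.univ) (w := fun _ : ι => N⁻¹)
      (p := fun i => gaussianPDFReal (m i) v x / gaussianPDFReal 0 1 x) (fun _ _ => by positivity)
      (by rw [Finset.sum_const, Finset.card_univ, nsmul_eq_mul, mul_inv_cancel₀ hN0.ne'])
      (fun i _ => div_nonneg (gaussianPDFReal_nonneg _ _ _) (hφ x).le)
    refine (mul_le_mul_of_nonneg_left h1 (hφ x).le).trans_eq ?_
    simp only [smul_eq_mul, Finset.mul_sum, ← hk]
    exact Finset.sum_congr rfl fun i _ => by ring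
  rw [klDiv_eq_lintegral_klFun_of_ac hac]
  have e1 : ∫⁻ x, ENNReal.ofReal (klFun ((mix m v).rnDeriv (gaussianReal 0 1) x).toReal)
      ∂(gaussianReal 0 1) = ∫⁻ x, ENNReal.ofReal (klFun (ρ x)) ∂(gaussianReal 0 1) := by
    refine lintegral_congr_ae ?_
    filter_upwards [hrn] with x hx
    rw [hx, ENNReal.toReal_ofReal (hρ0 x)]
  rw [e1, gaussianReal_of_var_ne_zero _ one_ne_zero, lintegral_withDensity_eq_lintegral_mul _
    (measurable_gaussianPDF _ _) (g := fun x => ENNReal.ofReal (klFun (ρ x)))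
    (measurable_klFun.comp hρm).ennreal_ofReal]
  have e2 : ∀ x, gaussianPDF 0 1 x * ENNReal.ofReal (klFun (ρ x)) ≤ ENNReal.ofReal
      (N⁻¹ * ∑ i, (gaussianPDFReal (m i) v x * q i x + gaussianPDFReal 0 1 x)) := fun x => by
    rw [gaussianPDF, ← ENNReal.ofReal_mul (hφ x).le]
    exact ENNReal.ofReal_le_ofReal (hpt x)
  refine (lintegral_mono e2).trans ?_
  rw [← ofReal_integral_eq_lintegral_ofReal
    ((integrable_finsetSum _ fun i _ => hqi i).const_mul _) (ae_of_all _ fun x =>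
      (mul_nonneg (hφ x).le (klFun_nonneg (hρ0 x))).trans (hpt x)),
    integral_const_mul, integral_finsetSum _ fun i _ => hqi i]
  refine ENNReal.ofReal_le_ofReal (mul_le_mul_of_nonneg_left (Finset.sum_le_sum fun i _ => ?_)
    (by positivity))
  rw [integral_add (integrable_pdf_mul hv (integrable_quad _ _ _ _ _))
    (integrable_gaussianPDFReal _ _), integral_pdf_mul _ hv, integral_quad,
    integral_gaussianPDFReal_eq_one _ one_ne_zero]
  have h1 := one_sub_inv_le_log_of_pos hv'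
  have h2 : (1 / 2 - 1 / (2 * (v : ℝ))) * (m i ^ 2 + v) + m i / v * m i +
      (-(m i ^ 2 / (2 * v)) - log v / 2 - 1) + 1 = (m i ^ 2 + v - 1 - log v) / 2 := by
    field_simp
    ring
  have h3 : (1 - 1 / (v : ℝ)) ^ 2 * v = v - 2 + (v : ℝ)⁻¹ := by
    field_simp
    ring
  rw [h2, h3]
  linarith

lemma gauss_tail (m : ℝ) {v : ℝ≥0} (hv : (v : ℝ) ≤ 1) {r : ℝ} (hr : 0 ≤ r) :
    (gaussianReal m v).real {x | r ≤ |x - m|} ≤ 2 * exp (-(r ^ 2 / 2)) := by
  have h1 := measure_ge_le_exp_mul_mgf (X := id) (μ := gaussianReal m v) (t := r) (m + r) hr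
    (integrable_exp_mul_gaussianReal r)
  have h2 := measure_le_le_exp_mul_mgf (X := id) (μ := gaussianReal m v) (t := -r) (m - r)
    (by linarith) (integrable_exp_mul_gaussianReal (-r))
  rw [mgf_id_gaussianReal, ← exp_add] at h1 h2
  have h3 : {x | r ≤ |x - m|} ⊆ {x | m + r ≤ id x} ∪ {x | id x ≤ m - r} := fun x hx => by
    rcases le_abs.1 (show r ≤ |x - m| from hx) with h | h
    · exact Or.inl (show m + r ≤ x by linarith)
    · exact Or.inr (show x ≤ m - r by linarith)
  have h4 := (measureReal_mono (μ := gaussianReal m v) h3).trans (measureReal_union_le _ _)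
  have h5 := mul_le_mul_of_nonneg_right hv (sq_nonneg r)
  have h6 := h1.trans (exp_le_exp.2 (show _ ≤ -(r ^ 2 / 2) by nlinarith))
  have h7 := h2.trans (exp_le_exp.2 (show _ ≤ -(r ^ 2 / 2) by nlinarith))
  linarith

/-- The proportion of components that are not centred. -/
noncomputable def prop (m : ι → ℝ) : ℝ :=
  (Fintype.card ι : ℝ)⁻¹ * ∑ i, if m i = 0 then (0 : ℝ) else 1

lemma prop_nonneg (m : ι → ℝ) : 0 ≤ prop m :=
  mul_nonneg (by positivity) (Finset.sum_nonneg fun i _ => by split_ifs <;> norm_num)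

lemma avg_ge (m : ι → ℝ) (a b : ℝ) (F : ι → ℝ)
    (h : ∀ i, a * (if m i = 0 then (0 : ℝ) else 1) + b ≤ F i) :
    a * prop m + b ≤ (Fintype.card ι : ℝ)⁻¹ * ∑ i, F i := by
  have hN0 : (0 : ℝ) < Fintype.card ι := card_pos'
  refine le_trans (le_of_eq ?_) (mul_le_mul_of_nonneg_left
    (Finset.sum_le_sum fun i _ => h i) (by positivity))
  rw [Finset.sum_add_distrib, ← Finset.mul_sum, Finset.sum_const, Finset.card_univ, nsmul_eq_mul,
    prop]
  field_simp

lemma fisher_far (m : ι → ℝ) {v : ℝ≥0} (hv : v ≠ 0) (hv1 : (v : ℝ) ≤ 1) {c η : ℝ} (hc : 0 < c)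
    (hη : 0 < η) (hη2 : η ≤ 1 / 2) (hm : ∀ i, m i = 0 ∨ c ≤ |m i|) {τ : ℝ}
    (hτ : τ = 2 * exp (-((η * c) ^ 2 / 2))) (hτ2 : τ ≤ 1 / 2) :
    ENNReal.ofReal (c ^ 2 * (1 - η - 4 * τ) * prop m +
      (-((1 + η) * c ^ 2 * τ) - (1 - 1 / v) ^ 2 * v / η)) ≤ relFisher (mix m v) := by
  have hτ0 : 0 ≤ τ := by rw [hτ]; positivity
  have hB : ∀ i, MeasurableSet {x | η * c ≤ |x - m i|} := fun i =>
    measurableSet_le measurable_const (by fun_prop)
  obtain ⟨w, hw⟩ : ∃ w : ℝ, w = 1 - 1 / v := ⟨_, rfl⟩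
  set α : ι → ℝ := fun i => if m i = 0 then 0 else 2 * c * |m i| - (1 + η) * c ^ 2 with hα
  set β : ι → ℝ := fun i => if m i = 0 then (1 + η) * c ^ 2 else 4 * c * |m i| with hβ
  have hi1 : ∀ i, Integrable (fun x : ℝ => -(w ^ 2 / η) * x ^ 2 + 2 * (w ^ 2 / η) * m i * x +
      (α i - w ^ 2 / η * m i ^ 2)) (gaussianReal (m i) v) := fun i => integrable_quad _ _ _ _ _
  have hi2 : ∀ i, Integrable ({x | η * c ≤ |x - m i|}.indicator fun _ => β i)
      (gaussianReal (m i) v) := fun i => (integrable_const _).indicator (hB i)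
  refine le_trans (ENNReal.ofReal_le_ofReal (avg_ge m _ _ _ fun i => ?_)) (fisher_mix_ge m hv
    (fun x => if (1 - η) * c < x then c else if x < -((1 - η) * c) then -c else 0)
    (fun i x => (-(w ^ 2 / η) * x ^ 2 + 2 * (w ^ 2 / η) * m i * x +
      (α i - w ^ 2 / η * m i ^ 2)) - {x | η * c ≤ |x - m i|}.indicator (fun _ => β i) x)
    (fun i => (hi1 i).sub (hi2 i)) fun i x => ?_)
  · rw [integral_sub (hi1 i) (hi2 i), integral_quad, integral_indicator_const _ (hB i), smul_eq_mul,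
      ← hw]
    have h1 := gauss_tail (m i) hv1 (r := η * c) (by positivity)
    rw [← hτ] at h1
    have h2 : -(w ^ 2 / η) * (m i ^ 2 + v) + 2 * (w ^ 2 / η) * m i * m i +
        (α i - w ^ 2 / η * m i ^ 2) = α i - w ^ 2 * v / η := by ring
    have h3 : 0 ≤ β i := by
      simp only [hβ]
      split_ifs <;> positivity
    have h4 := mul_le_mul_of_nonneg_right h1 h3
    have h5 : 0 ≤ (1 + η) * c ^ 2 * τ := by positivity
    rw [h2]
    by_cases h : m i = 0
    · simp only [hα, hβ, if_pos h] at h4 ⊢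
      linarith
    · simp only [hα, hβ, if_neg h] at h4 ⊢
      have h6 := (hm i).resolve_left h
      nlinarith [mul_le_mul_of_nonneg_left h6 (show 0 ≤ c * (1 - 2 * τ) by nlinarith)]
  · obtain ⟨g, hg⟩ : ∃ g : ℝ, g = if (1 - η) * c < x then c else if x < -((1 - η) * c) then -c
      else 0 := ⟨_, rfl⟩
    rw [← hg]
    have h1 : α i - {x | η * c ≤ |x - m i|}.indicator (fun _ => β i) x ≤
        2 * g * m i - (1 + η) * g ^ 2 := by
      have hcc : 0 < c ^ 2 := by positivity
      have hec : 0 < η * c := by positivity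
      have hec2 : η * c ≤ (1 - η) * c := by nlinarith
      have hg2 : g ^ 2 ≤ c ^ 2 := by
        rw [hg]
        split_ifs <;> nlinarith
      have hg3 : |g| ≤ c := abs_le_of_sq_le_sq' hg2 hc.le |> abs_le.2
      by_cases hx : x ∈ {x | η * c ≤ |x - m i|}
      · rw [Set.indicator_of_mem hx]
        by_cases h : m i = 0
        · simp only [hα, hβ, if_pos h, h]
          nlinarith
        · simp only [hα, hβ, if_neg h]
          have h2 := neg_abs_le (g * m i)
          rw [abs_mul] at h2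
          nlinarith [mul_le_mul_of_nonneg_right hg3 (abs_nonneg (m i))]
      · rw [Set.indicator_of_notMem hx]
        obtain ⟨h2, h3⟩ := abs_lt.1 (not_le.1 (show ¬ η * c ≤ |x - m i| from hx))
        by_cases h : m i = 0
        · rw [h, sub_zero] at h2 h3
          rw [hg, if_neg (by linarith), if_neg (by linarith)]
          simp [hα, h]
        · simp only [hα, if_neg h]
          rcases le_abs.1 ((hm i).resolve_left h) with h4 | h4
          · rw [hg, if_pos (by linarith), abs_of_pos (by linarith)]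
            linarith
          · rw [hg, if_neg (by linarith), if_pos (by linarith), abs_of_neg (by linarith)]
            linarith
    have h2 : x - (x - m i) / v = m i + w * (x - m i) := by rw [hw]; ring
    have h3 : 0 ≤ (η * g + w * (x - m i)) ^ 2 / η := by positivity
    have h4 : (η * g + w * (x - m i)) ^ 2 / η =
        η * g ^ 2 + 2 * g * (w * (x - m i)) + w ^ 2 / η * (x - m i) ^ 2 := by
      field_simp
      ring
    rw [h2]
    nlinarith

lemma kl_far (m : ι → ℝ) {v : ℝ≥0} (hv1 : (v : ℝ) ≤ 1) {c η : ℝ} (hc : 0 < c)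
    (hη : 0 < η) (hη2 : η ≤ 1 / 2) (hm : ∀ i, m i = 0 ∨ c ≤ |m i|) {τ : ℝ}
    (hτ : τ = 2 * exp (-((η * c) ^ 2 / 2))) :
    ENNReal.ofReal ((1 - η) ^ 3 * c ^ 2 / 2 * ((1 - τ) * prop m) -
      2 * exp (-(η * ((1 - η) * c) ^ 2 / 2))) ≤ klDiv (mix m v) (gaussianReal 0 1) := by
  have h0 : 0 < 1 - η := by linarith
  refine le_trans (ENNReal.ofReal_le_ofReal ?_) (klDiv_lower _ _ {x | (1 - η) * c ≤ |x - 0|}
    ((1 - η) ^ 3 * c ^ 2 / 2))
  have h1 := mul_le_mul_of_nonneg_left (gauss_tail 0 (v := 1) le_rfl (r := (1 - η) * c)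
    (by positivity)) (exp_pos ((1 - η) ^ 3 * c ^ 2 / 2)).le
  rw [mul_left_comm, ← exp_add, show (1 - η) ^ 3 * c ^ 2 / 2 + -(((1 - η) * c) ^ 2 / 2) =
    -(η * ((1 - η) * c) ^ 2 / 2) by ring] at h1
  have h2 : (1 - τ) * prop m + 0 ≤ (mix m v).real {x | (1 - η) * c ≤ |x - 0|} := by
    rw [measureReal_def, mix_apply, ENNReal.toReal_mul, ENNReal.toReal_inv, ENNReal.toReal_natCast,
      ENNReal.toReal_sum fun i _ => measure_ne_top _ _]
    refine avg_ge m _ _ _ fun i => ?_
    by_cases h : m i = 0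
    · simp [h]
    · have h3 := gauss_tail (m i) hv1 (r := η * c) (by positivity)
      have h4 : {x | η * c ≤ |x - m i|}ᶜ ⊆ {x | (1 - η) * c ≤ |x - 0|} := fun x hx => by
        have h5 := not_le.1 (show ¬ η * c ≤ |x - m i| from hx)
        have h6 := (hm i).resolve_left h
        have h7 := abs_sub_abs_le_abs_sub (m i) x
        rw [abs_sub_comm] at h7
        change (1 - η) * c ≤ |x - 0|
        rw [sub_zero]
        linarith
      have h5 := measureReal_mono (μ := gaussianReal (m i) v) h4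
      rw [probReal_compl_eq_one_sub (measurableSet_le measurable_const (by fun_prop))] at h5
      rw [if_neg h, ← measureReal_def]
      linarith
  have h3 := mul_le_mul_of_nonneg_left h2 (show 0 ≤ (1 - η) ^ 3 * c ^ 2 / 2 by positivity)
  linarith

/-- Two outliers among `k + 2` indices. -/
def zz (k : ℕ) : Fin k ⊕ Bool → ℤ := Sum.elim (fun _ => 0) fun b => if b then 1 else -1

lemma count_ge (k : ℕ) (hk : 2 ≤ k) (n : ℕ) :
    ((k : ℝ) + 2) ^ n * (n * (2 / (k + 2)) - (n * (2 / (k + 2))) ^ 2) ≤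
      ∑ s : Fin n → Fin k ⊕ Bool, if ∑ j, zz k (s j) = 0 then (0 : ℝ) else 1 := by
  induction n with
  | zero => simp
  | succ n ih =>
    rw [← (Fin.consEquiv fun _ => Fin k ⊕ Bool).sum_comp, Fintype.sum_prod_type,
      Fintype.sum_sum_type]
    simp only [Fin.consEquiv_apply, Fin.sum_univ_succ, Fin.cons_zero, Fin.cons_succ]
    obtain ⟨U, hU⟩ : ∃ U : ℝ, U = ∑ s : Fin n → Fin k ⊕ Bool,
      if ∑ j, zz k (s j) = 0 then (0 : ℝ) else 1 := ⟨_, rfl⟩
    have h1 : ∀ b : Bool, ((k : ℝ) + 2) ^ n - U ≤ ∑ s : Fin n → Fin k ⊕ Bool,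
        if zz k (Sum.inr b) + ∑ j, zz k (s j) = 0 then (0 : ℝ) else 1 := fun b => by
      have : ((k : ℝ) + 2) ^ n = ∑ _s : Fin n → Fin k ⊕ Bool, (1 : ℝ) := by simp
      rw [this, hU, ← Finset.sum_sub_distrib]
      refine Finset.sum_le_sum fun s _ => ?_
      by_cases h : ∑ j, zz k (s j) = 0
      · rw [h]
        cases b <;> simp [zz]
      · rw [if_neg h]
        split_ifs <;> norm_num
    have h2 : ∑ i : Fin k, (∑ s : Fin n → Fin k ⊕ Bool,
        if zz k (Sum.inl i) + ∑ j, zz k (s j) = 0 then (0 : ℝ) else 1) = k * U := by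
      simp only [show ∀ i, zz k (Sum.inl i) = 0 from fun _ => rfl, zero_add, ← hU]
      simp
    rw [← hU] at ih
    rw [h2, Fintype.sum_bool]
    have hk' : (2 : ℝ) ≤ k := by exact_mod_cast hk
    obtain ⟨p, hp⟩ : ∃ p : ℝ, p = 2 / (k + 2) := ⟨_, rfl⟩
    have hp0 : 0 < p := by rw [hp]; positivity
    have hp1 : ((k : ℝ) + 2) * p = 2 := by rw [hp]; field_simp
    have hP : 0 < ((k : ℝ) + 2) ^ n := by positivity
    rw [← hp] at ih ⊢
    have h3 := mul_le_mul_of_nonneg_left ih (show (0 : ℝ) ≤ k - 2 by linarith)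
    have h4 : ((k : ℝ) + 2) * (((n + 1 : ℕ) : ℝ) * p - (((n + 1 : ℕ) : ℝ) * p) ^ 2) ≤
        (k - 2) * (n * p - (n * p) ^ 2) + 2 := by
      push_cast
      have e : ((k : ℝ) - 2) * (n * p - (n * p) ^ 2) + 2 -
          (k + 2) * ((n + 1) * p - ((n + 1) * p) ^ 2) = 4 * (n * p) ^ 2 + 2 * p := by
        linear_combination (-1 + (2 * n + 1) * p) * hp1
      nlinarith [sq_nonneg (n * p)]
    have h5 := mul_le_mul_of_nonneg_left h4 hP.le
    rw [pow_succ]
    nlinarith [h1 true, h1 false]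

lemma tendsto_pow_exp {κ : ℝ} (hκ : 0 < κ) (j : ℕ) :
    Tendsto (fun T : ℝ => T ^ j * exp (-(κ * T))) atTop (𝓝 0) := by
  simpa [neg_mul] using tendsto_rpow_mul_exp_neg_mul_atTop_nhds_zero (j : ℝ) κ hκ

lemma asym {a ε θ η n : ℝ} (hε : 0 < ε) (hη : 0 < η) (hη1 : η < 1) (hn : 0 < n)
    (h1 : θ < 1 - η) (h3 : θ < (1 - η) ^ 3) : ∀ᶠ T : ℝ in atTop,
      a / T < 1 / 2 ∧ a / T * (1 + a / T / (1 - a / T)) < ε ∧
      4 * (2 * exp (-(η ^ 2 / (2 * n) * T))) < 1 - η ∧
      θ * (1 + a / T / (1 - a / T)) < (1 - η - 4 * (2 * exp (-(η ^ 2 / (2 * n) * T)))) *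
        (1 - n * ((a / T) ^ 2 / a)) - (1 + η) * (2 * (T ^ 2 * exp (-(η ^ 2 / (2 * n) * T)))) /
          (n * a) - a / T / (1 - a / T) / η ∧
      θ * (1 + a / T / (1 - a / T)) < (1 - η) ^ 3 * ((1 - 2 * exp (-(η ^ 2 / (2 * n) * T))) *
        (1 - n * ((a / T) ^ 2 / a))) - 4 * (T ^ 1 * exp (-(η * (1 - η) ^ 2 / (2 * n) * T))) / a := by
  have h0 : 0 < 1 - η := by linarith
  have d : Tendsto (fun T : ℝ => a / T) atTop (𝓝 0) := tendsto_const_nhds.div_atTop tendsto_id
  have d1 : Tendsto (fun T : ℝ => a / T / (1 - a / T)) atTop (𝓝 0) := by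
    have := d.div (d.const_sub 1) (by simp)
    rw [zero_div] at this
    exact this
  have e0 : Tendsto (fun T : ℝ => 2 * exp (-(η ^ 2 / (2 * n) * T))) atTop (𝓝 0) := by
    simpa using (tendsto_pow_exp (κ := η ^ 2 / (2 * n)) (by positivity) 0).const_mul 2
  have e2 := tendsto_pow_exp (κ := η ^ 2 / (2 * n)) (by positivity) 2
  have e1 := tendsto_pow_exp (κ := η * (1 - η) ^ 2 / (2 * n)) (by positivity) 1
  have q := (((d.pow 2).div_const a).const_mul n).const_sub 1
  have l := (d1.const_add 1).const_mul θ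
  refine (d.eventually_lt_const (by norm_num)).and
    (((d.mul (d1.const_add 1)).eventually_lt_const (by simpa using hε)).and
    (((e0.const_mul 4).eventually_lt_const (by simpa using hη1)).and
    ((l.eventually_lt (((((e0.const_mul 4).const_sub (1 - η)).mul q).sub
      (((e2.const_mul 2).const_mul (1 + η)).div_const (n * a))).sub (d1.div_const η))
      (by simpa using h1)).and
    (l.eventually_lt ((((e0.const_sub 1).mul q).const_mul ((1 - η) ^ 3)).sub
      ((e1.const_mul 4).div_const a)) (by simpa using h3)))))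

end Pool.Agent.Lib.MP_e841a3_pr
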