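import Pool.Agent.Lib.MP_e841a3_pr.Near

open MeasureTheory ProbabilityTheory Real InformationTheory Filter
open scoped ENNReal NNReal

namespace Pool.Agent.Lib.MP_e841a3_pr

/-- Nearly Gaussian laws with bounded fourth moment for which both inequalities fail. -/
theorem near_both (M : ℝ) (hM : 3 < M) (ε : ℝ) (hε : 0 < ε) (n : ℕ) (hn : 1 ≤ n) (C : ℝ)
    (hC : C < n) :
    ∃ (Ω : Type) (_ : MeasurableSpace Ω) (P : Measure Ω) (_ : IsProbabilityMeasure P)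
      (X : ℕ → Ω → ℝ), (∀ i, Measurable (X i)) ∧ iIndepFun X P ∧
      (∀ i, IdentDistrib (X i) (X 0) P P) ∧ Integrable (fun ω => X 0 ω ^ 4) P ∧
      ∫ ω, X 0 ω ∂P = 0 ∧ ∫ ω, X 0 ω ^ 2 ∂P = 1 ∧ ∫ ω, X 0 ω ^ 4 ∂P ≤ M ∧
      relFisher (P.map (X 0)) ≤ ENNReal.ofReal ε ∧
      klDiv (P.map (X 0)) (gaussianReal 0 1) ≤ ENNReal.ofReal ε ∧
      relFisher (P.map (fun ω => (∑ i ∈ Finset.range n, X i ω) / √n)) ≠ ⊤ ∧
      klDiv (P.map (fun ω => (∑ i ∈ Finset.range n, X i ω) / √n)) (gaussianReal 0 1) ≠ ⊤ ∧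
      ENNReal.ofReal (C / n) * relFisher (P.map (X 0)) <
        relFisher (P.map (fun ω => (∑ i ∈ Finset.range n, X i ω) / √n)) ∧
      ENNReal.ofReal (C / n) * klDiv (P.map (X 0)) (gaussianReal 0 1) <
        klDiv (P.map (fun ω => (∑ i ∈ Finset.range n, X i ω) / √n)) (gaussianReal 0 1) := by
  have hn0 : (0 : ℝ) < n := by exact_mod_cast hn
  obtain ⟨θ, hθ⟩ : ∃ θ : ℝ, θ = max (C / n) 0 := ⟨_, rfl⟩
  have hθ0 : 0 ≤ θ := hθ ▸ le_max_right _ _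
  have hθ1 : θ < 1 := hθ ▸ max_lt ((div_lt_one hn0).2 hC) one_pos
  have hθ2 : ENNReal.ofReal (C / n) ≤ ENNReal.ofReal θ :=
    ENNReal.ofReal_le_ofReal (hθ ▸ le_max_left _ _)
  obtain ⟨η, hη⟩ : ∃ η : ℝ, η = (1 - θ) / 4 := ⟨_, rfl⟩
  have hη0 : 0 < η := by linarith
  have hη2 : η ≤ 1 / 2 := by linarith
  obtain ⟨a, ha⟩ : ∃ a : ℝ, a = M - 3 := ⟨_, rfl⟩
  have ha0 : 0 < a := by linarith
  have hT : Tendsto (fun k : ℕ => √(a / 2 * ((k : ℝ) + 2))) atTop atTop :=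
    tendsto_sqrt_atTop.comp ((tendsto_atTop_add_const_right _ _
      tendsto_natCast_atTop_atTop).const_mul_atTop (by positivity))
  have hη3 : θ < (1 - η) ^ 3 := by
    nlinarith [mul_pos (mul_pos hη0 hη0) (show 0 < 3 - η by linarith)]
  obtain ⟨k, ⟨c1, c2, c3, c4, c5⟩, hk⟩ := ((hT.eventually (asym (a := a) (θ := θ) hε hη0
    (by linarith) hn0 (by linarith) hη3)).and (eventually_ge_atTop 2)).exists
  obtain ⟨T, hT⟩ : ∃ T : ℝ, T = √(a / 2 * ((k : ℝ) + 2)) := ⟨_, rfl⟩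
  rw [← hT] at c1 c2 c3 c4 c5
  have hT0 : 0 < T := by rw [hT]; positivity
  have hT2 : T ^ 2 = a / 2 * ((k : ℝ) + 2) := by rw [hT, sq_sqrt (by positivity)]
  obtain ⟨δ, hδ⟩ : ∃ δ : ℝ, δ = a / T := ⟨_, rfl⟩
  rw [← hδ] at c1 c2 c4 c5
  have hδ0 : 0 < δ := by rw [hδ]; positivity
  have hδT : δ * T = a := by rw [hδ]; field_simp
  have hp : 2 / ((k : ℝ) + 2) = δ ^ 2 / a := by
    rw [hδ, div_pow, hT2]
    field_simp
  obtain ⟨v, hv⟩ : ∃ v : ℝ≥0, (v : ℝ) = 1 - δ := ⟨⟨1 - δ, by linarith⟩, rfl⟩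
  have hv0 : v ≠ 0 := fun h => by
    rw [h, NNReal.coe_zero] at hv
    linarith
  have hv2 : 0 < 1 - δ := by linarith
  have hw : (1 - 1 / (v : ℝ)) ^ 2 * v = δ * (δ / (1 - δ)) := by
    rw [hv]
    field_simp
    ring
  obtain ⟨m, hm⟩ : ∃ m : Fin k ⊕ Bool → ℝ, m = fun i => √T * zz k i := ⟨_, rfl⟩
  have hs : ∀ F : ℝ → ℝ, (Fintype.card (Fin k ⊕ Bool) : ℝ)⁻¹ * ∑ i, F (m i) =
      F 0 + δ ^ 2 / a * ((F √T + F (-√T)) / 2 - F 0) := fun F => by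
    rw [← hp, hm, Fintype.sum_sum_type, Fintype.sum_bool]
    simp [zz]
    field_simp
    ring
  have hL : √T ^ 2 = T := sq_sqrt hT0.le
  have hL4 : √T ^ 4 = T ^ 2 := by rw [← hL]; simp only [sqrt_sq (sqrt_nonneg T)]; ring
  have hd1 : δ ^ 2 / a * T = δ := by rw [← hδT]; field_simp
  obtain ⟨Ω, mΩ, P, X, hX, hlaw, hind, hP⟩ := exists_iid ℕ (mix m v)
  have hint : ∀ j : ℕ, ∫ ω, X 0 ω ^ j ∂P = (Fintype.card (Fin k ⊕ Bool) : ℝ)⁻¹ *
      ∑ i, ∫ x, x ^ j ∂(gaussianReal (m i) v) := fun j => by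
    rw [← smul_eq_mul, ← integral_mix _ _ _ fun i => integrable_pow_gauss _ v j,
      ← (hlaw 0).map_eq, integral_map (hX 0).aemeasurable (by fun_prop)]
  have j1 : relFisher (mix m v) ≤ ENNReal.ofReal (δ * (1 + δ / (1 - δ))) := by
    refine (fisher_mix_le m hv0).trans_eq ?_
    rw [hs fun x => x ^ 2 + (1 - 1 / (v : ℝ)) ^ 2 * v, hw, neg_sq, hL]
    congr 1
    linear_combination hd1
  have d1 : klDiv (mix m v) (gaussianReal 0 1) ≤ ENNReal.ofReal (δ * (1 + δ / (1 - δ)) / 2) := by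
    refine (kl_mix_le' m hv0).trans_eq ?_
    rw [hs fun x => (x ^ 2 + (1 - 1 / (v : ℝ)) ^ 2 * v) / 2, hw, neg_sq, hL]
    congr 1
    linear_combination hd1 / 2
  have hpos : 0 < δ * (1 + δ / (1 - δ)) := by positivity
  obtain ⟨m', hm'⟩ : ∃ m' : (Fin n → Fin k ⊕ Bool) → ℝ, m' = fun s => (∑ j, m (s j)) / √n :=
    ⟨_, rfl⟩
  have hsn : 0 < √(n : ℝ) := by positivity
  have hc : 0 < √T / √n := by positivity
  have hc2 : (√T / √n) ^ 2 = T / n := by rw [div_pow, hL, sq_sqrt hn0.le]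
  have e1 : ∀ s, m' s = √T / √n * ((∑ j, zz k (s j) : ℤ) : ℝ) := fun s => by
    simp only [hm', hm, ← Finset.mul_sum]
    push_cast
    ring
  have e2 : ∀ s, m' s = 0 ∨ √T / √n ≤ |m' s| := fun s => by
    rw [e1]
    by_cases h : ∑ j, zz k (s j) = 0
    · simp [h]
    · rw [abs_mul, abs_of_pos hc]
      exact Or.inr (le_mul_of_one_le_right hc.le (by exact_mod_cast Int.one_le_abs h))
  have e3 : δ * (1 - n * (δ ^ 2 / a)) ≤ T / n * prop m' := by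
    have h1 := count_ge k hk n
    have h2 : prop m' = (((k : ℝ) + 2) ^ n)⁻¹ *
        ∑ s : Fin n → Fin k ⊕ Bool, if ∑ j, zz k (s j) = 0 then (0 : ℝ) else 1 := by
      simp only [prop, e1, mul_eq_zero, hc.ne', false_or, Int.cast_eq_zero]
      simp
    rw [hp, ← le_inv_mul_iff₀ (by positivity), ← h2] at h1
    refine le_trans (le_of_eq ?_) (mul_le_mul_of_nonneg_left h1 (by positivity))
    have : T / n * (n * (δ ^ 2 / a)) = δ := by rw [← hd1]; field_simp; rw [← hδT]; ring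
    linear_combination (n * (δ ^ 2 / a) - 1) * this
  obtain ⟨τ, hτ⟩ : ∃ τ : ℝ, τ = 2 * exp (-(η ^ 2 / (2 * n) * T)) := ⟨_, rfl⟩
  have hτ' : τ = 2 * exp (-((η * (√T / √n)) ^ 2 / 2)) := by
    rw [hτ, mul_pow, hc2]
    congr 3
    ring
  have e4 : 2 * (T ^ 2 * exp (-(η ^ 2 / (2 * n) * T))) = T ^ 2 * τ := by rw [hτ]; ring
  rw [e4] at c4
  rw [← hτ] at c3 c4 c5
  have j2 := fisher_far m' hv0 (by linarith) hc hη0 hη2 e2 hτ' (by linarith)
  have d2 := kl_far m' (v := v) (by linarith) hc hη0 hη2 e2 hτ'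
  rw [hc2, hw] at j2
  rw [mul_pow, hc2, show η * ((1 - η) ^ 2 * (T / n)) / 2 = η * (1 - η) ^ 2 / (2 * n) * T by ring]
    at d2
  refine ⟨Ω, mΩ, P, hP, X, hX, hind, fun i =>
    ⟨(hX i).aemeasurable, (hX 0).aemeasurable, by rw [(hlaw i).map_eq, (hlaw 0).map_eq]⟩,
    ?_, ?_, ?_, ?_, ?_⟩
  · have h : Integrable (fun x : ℝ => x ^ 4) (mix m v) :=
      integrable_mix _ _ _ fun i => integrable_pow_gauss _ v 4
    rw [← (hlaw 0).map_eq] at h
    exact (integrable_map_measure (by fun_prop) (hX 0).aemeasurable).1 h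
  · have := hint 1
    simp only [pow_one, integral_id_gaussianReal] at this
    rw [this, hs fun x => x]
    ring
  · rw [hint 2]
    simp only [integral_sq_gauss]
    rw [hs fun x => x ^ 2 + v, neg_sq, hL, hv]
    linear_combination hd1
  · rw [hint 4]
    simp only [integral_four_gauss]
    rw [hs fun x => x ^ 4 + 6 * x ^ 2 * v + 3 * (v : ℝ) ^ 2, neg_sq, Even.neg_pow (by decide), hL,
      hL4, hv]
    have : (0 : ℝ) ^ 4 + 6 * 0 ^ 2 * (1 - δ) + 3 * (1 - δ) ^ 2 + δ ^ 2 / a *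
        ((T ^ 2 + 6 * T * (1 - δ) + 3 * (1 - δ) ^ 2 + (T ^ 2 + 6 * T * (1 - δ) +
          3 * (1 - δ) ^ 2)) / 2 - (0 ^ 4 + 6 * 0 ^ 2 * (1 - δ) + 3 * (1 - δ) ^ 2)) =
        a + 3 - 3 * δ ^ 2 := by
      linear_combination (T + 6 * (1 - δ)) * hd1 + hδT
    rw [this]
    linarith only [ha, sq_nonneg δ]
  rw [law_sum hX hind _ v hlaw n hn, (hlaw 0).map_eq, ← hm']
  refine ⟨j1.trans (ENNReal.ofReal_le_ofReal c2.le), d1.trans (ENNReal.ofReal_le_ofReal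
    (by linarith)), ne_top_of_le_ne_top ENNReal.ofReal_ne_top (fisher_mix_le _ hv0),
    ne_top_of_le_ne_top ENNReal.ofReal_ne_top (kl_mix_le' _ hv0), ?_, ?_⟩
  · refine ((mul_le_mul' hθ2 j1).trans_lt ?_).trans_le j2
    rw [← ENNReal.ofReal_mul hθ0]
    refine (ENNReal.ofReal_lt_ofReal_iff_of_nonneg (by positivity)).2 ?_
    have h1 := mul_lt_mul_of_pos_left c4 hδ0
    have h2 := mul_le_mul_of_nonneg_left e3 (show 0 ≤ 1 - η - 4 * τ by linarith)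
    have h3 : δ * ((1 + η) * (T ^ 2 * τ) / (n * a)) = (1 + η) * (T / n) * τ := by
      rw [← hδT]
      field_simp
    have h4 : δ * (δ / (1 - δ)) / η = δ * (δ / (1 - δ) / η) := by ring
    rw [h4]
    linarith only [h1, h2, h3]
  · refine ((mul_le_mul' hθ2 d1).trans_lt ?_).trans_le d2
    rw [← ENNReal.ofReal_mul hθ0]
    refine (ENNReal.ofReal_lt_ofReal_iff_of_nonneg (by positivity)).2 ?_
    have h1 := mul_lt_mul_of_pos_left c5 hδ0
    have h0 : 0 < 1 - η := by linarith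
    have h5 : 0 ≤ 1 - τ := by linarith
    have h2 := mul_le_mul_of_nonneg_left e3 (show 0 ≤ (1 - η) ^ 3 * (1 - τ) by positivity)
    have h3 : δ * (4 * (T ^ 1 * exp (-(η * (1 - η) ^ 2 / (2 * n) * T))) / a) =
        4 * exp (-(η * (1 - η) ^ 2 / (2 * n) * T)) := by
      rw [← hδT]
      field_simp
    linarith only [h1, h2, h3]

end Pool.Agent.Lib.MP_e841a3_pr
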